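import Pool.Agent.Helper24.AQ.Union

set_option autoImplicit false

namespace Pool.Agent.Helper24.AQ

open Finset

/-- The possible relations with more than `T` active coordinates. -/
noncomputable def relFam (n k L T : ℕ) : Finset (Finset ((Fin n → ℕ) × ℤ)) := by
  classical
  exact (exps n L ×ˢ Icc (-(k : ℤ)) k).powerset.filter
    (fun R => R.card ≤ 2 * k ∧ (∀ i, ∃ x ∈ R, x.1 i = 0) ∧ T < (act R).card)

theorem mem_relFam {n k L T : ℕ} {R : Finset ((Fin n → ℕ) × ℤ)} :
    R ∈ relFam n k L T ↔ (R ⊆ exps n L ×ˢ Icc (-(k : ℤ)) k) ∧ R.card ≤ 2 * k ∧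
      (∀ i, ∃ x ∈ R, x.1 i = 0) ∧ T < (act R).card := by
  unfold relFam
  simp only [mem_filter, mem_powerset]

theorem mem_act {n : ℕ} {R : Finset ((Fin n → ℕ) × ℤ)} {i : Fin n} :
    i ∈ act R ↔ ∃ x ∈ R, x.1 i ≠ 0 := by
  unfold act
  simp only [mem_filter, mem_univ, true_and]

theorem val_mul {n : ℕ} (p e f : Fin n → ℕ) : val p (fun i => e i + f i) = val p e * val p f := by
  unfold val
  rw [← prod_mul_distrib]
  exact prod_congr rfl (fun i _ => pow_add _ _ _)

theorem map_sum_eq {α : Type*} [DecidableEq α] (s : Multiset α) (E : Finset α)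
    (h : ∀ v ∈ s, v ∈ E) (f : α → ℤ) : (s.map f).sum = ∑ v ∈ E, (s.count v : ℤ) * f v := by
  rw [Finset.sum_multiset_map_count]
  have : ∑ v ∈ s.toFinset, s.count v • f v = ∑ v ∈ s.toFinset, (s.count v : ℤ) * f v :=
    sum_congr rfl (fun v _ => by simp)
  rw [this]
  apply sum_subset
  · intro v hv
    exact h v (Multiset.mem_toFinset.1 hv)
  · intro v _ hv
    have : v ∉ s := fun h => hv (Multiset.mem_toFinset.2 h)
    simp [Multiset.count_eq_zero_of_notMem this]

theorem bk {n k L T : ℕ} (p : Fin n → ℕ) (hp : ∀ i, 1 ≤ p i) (E : Finset (Fin n → ℕ))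
    (hE : ∀ e ∈ E, ∀ e' ∈ E, ∑ i, (e i - e' i) ≤ L)
    (hsep : ∀ e ∈ E, ∀ e' ∈ E, e ≠ e' → T < (univ.filter (fun i => e i ≠ e' i)).card)
    (hgood : ∀ R ∈ relFam n k (2 * k * L) T, ¬ Rel p R) (s t : Multiset (Fin n → ℕ))
    (hs : Multiset.card s = k) (ht : Multiset.card t = k) (hsE : ∀ v ∈ s, v ∈ E)
    (htE : ∀ v ∈ t, v ∈ E) (hsum : (s.map (val p)).sum = (t.map (val p)).sum) : s = t := by
  classical
  by_contra hne
  set c : (Fin n → ℕ) → ℤ := fun v => (s.count v : ℤ) - t.count v with hc
  set V := E.filter (fun v => c v ≠ 0) with hV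
  have h0 : ∑ v ∈ E, c v * val p v = 0 := by
    rw [map_sum_eq s E hsE, map_sum_eq t E htE] at hsum
    have : ∑ v ∈ E, c v * val p v =
        ∑ v ∈ E, (s.count v : ℤ) * val p v - ∑ v ∈ E, (t.count v : ℤ) * val p v := by
      rw [← sum_sub_distrib]
      exact sum_congr rfl (fun v _ => by rw [hc]; ring)
    rw [this, hsum, sub_self]
  have hV0 : ∑ v ∈ V, c v * val p v = 0 := by
    rw [hV, sum_filter]
    refine (sum_congr rfl (fun v _ => ?_)).trans h0
    split_ifs with h
    · rfl
    · rw [not_not] at h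
      rw [h, zero_mul]
  have hVne : V.Nonempty := by
    by_contra hem
    rw [not_nonempty_iff_eq_empty] at hem
    apply hne
    ext v
    by_contra hcount
    have hcv : c v ≠ 0 := by
      rw [hc]
      simp only
      intro h
      apply hcount
      have : (s.count v : ℤ) = t.count v := by linarith
      exact_mod_cast this
    have hvE : v ∈ E := by
      by_contra hvE
      have h1 : v ∉ s := fun h => hvE (hsE v h)
      have h2 : v ∉ t := fun h => hvE (htE v h)
      apply hcv
      rw [hc]
      simp [Multiset.count_eq_zero_of_notMem h1, Multiset.count_eq_zero_of_notMem h2]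
    have : v ∈ V := mem_filter.2 ⟨hvE, hcv⟩
    rw [hem] at this
    simp at this
  have hVcard : V.card ≤ 2 * k := by
    have h1 : V ⊆ s.toFinset ∪ t.toFinset := by
      intro v hv
      have hcv := (mem_filter.1 hv).2
      by_contra hv2
      rw [mem_union, not_or, Multiset.mem_toFinset, Multiset.mem_toFinset] at hv2
      apply hcv
      rw [hc]
      simp [Multiset.count_eq_zero_of_notMem hv2.1, Multiset.count_eq_zero_of_notMem hv2.2]
    have h2 := card_le_card h1
    have h3 := card_union_le s.toFinset t.toFinset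
    have h4 := Multiset.toFinset_card_le s
    have h5 := Multiset.toFinset_card_le t
    omega
  have hck : ∀ v, |c v| ≤ k := by
    intro v
    have h1 := Multiset.count_le_card v s
    have h2 := Multiset.count_le_card v t
    rw [hc]
    simp only
    rw [abs_le]
    constructor <;> · push_cast; omega
  -- minimal vanishing subset
  obtain ⟨B, hB, hBmin⟩ := exists_min_image
    (V.powerset.filter (fun B => B.Nonempty ∧ ∑ v ∈ B, c v * val p v = 0)) (fun B => B.card)
    ⟨V, mem_filter.2 ⟨mem_powerset.2 (subset_refl _), hVne, hV0⟩⟩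
  obtain ⟨hBV, hBne, hB0⟩ := mem_filter.1 hB
  rw [mem_powerset] at hBV
  have hval : ∀ v, 0 < val p v := fun v => val_pos p v hp
  have hB2 : ∃ v0 ∈ B, ∃ v1 ∈ B, v0 ≠ v1 := by
    obtain ⟨v0, hv0⟩ := hBne
    by_contra hno
    push Not at hno
    have hB1 : B = {v0} := by
      ext v
      rw [mem_singleton]
      exact ⟨fun hv => (hno v0 hv0 v hv).symm, fun hv => hv ▸ hv0⟩
    rw [hB1, sum_singleton] at hB0
    rcases mul_eq_zero.1 hB0 with h | h
    · exact (mem_filter.1 (hBV hv0)).2 h
    · exact (hval v0).ne' h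
  set μ : Fin n → ℕ := fun i => B.inf' hBne (fun v => v i) with hμ
  have hμle : ∀ v ∈ B, ∀ i, μ i ≤ v i := fun v hv i => inf'_le (fun v : Fin n → ℕ => v i) hv
  set g : (Fin n → ℕ) → (Fin n → ℕ) × ℤ := fun v => (fun i => v i - μ i, c v) with hg
  have hginj : Set.InjOn g B := by
    intro v hv v' hv' h
    rw [hg] at h
    simp only [Prod.mk.injEq] at h
    ext i
    have h1 := congrFun h.1 i
    have h2 := hμle v hv i
    have h3 := hμle v' hv' i
    omega
  have hvalg : ∀ v ∈ B, val p v = val p (g v).1 * val p μ := by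
    intro v hv
    rw [← val_mul]
    congr 1
    ext i
    have := hμle v hv i
    rw [hg]
    simp only
    omega
  have hsumg : ∀ B' ⊆ B, (∑ x ∈ B'.image g, x.2 * val p x.1) * val p μ =
      ∑ v ∈ B', c v * val p v := by
    intro B' hB'
    rw [sum_image (fun v hv v' hv' h => hginj (hB' hv) (hB' hv') h), sum_mul]
    refine sum_congr rfl (fun v hv => ?_)
    rw [hvalg v (hB' hv), hg]
    ring
  apply hgood (B.image g)
  · rw [mem_relFam]
    refine ⟨?_, ?_, ?_, ?_⟩
    · intro x hx
      obtain ⟨v, hv, rfl⟩ := mem_image.1 hx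
      rw [mem_product]
      refine ⟨?_, ?_⟩
      · rw [mem_exps]
        have h1 : ∀ i : Fin n, (g v).1 i ≤ ∑ w ∈ B, (v i - w i) := by
          intro i
          obtain ⟨w, hw, hwi⟩ := exists_mem_eq_inf' hBne (fun w : Fin n → ℕ => w i)
          have h2 : (g v).1 i = v i - w i := by
            rw [hg]
            simp only
            rw [hμ]
            simp only
            rw [hwi]
          rw [h2]
          exact single_le_sum (f := fun w : Fin n → ℕ => v i - w i) (fun _ _ => Nat.zero_le _) hw
        calc ∑ i, (g v).1 i ≤ ∑ i, ∑ w ∈ B, (v i - w i) := sum_le_sum (fun i _ => h1 i)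
          _ = ∑ w ∈ B, ∑ i, (v i - w i) := sum_comm
          _ ≤ ∑ _w ∈ B, L := sum_le_sum (fun w hw =>
              hE v (mem_filter.1 (hBV hv)).1 w (mem_filter.1 (hBV hw)).1)
          _ = B.card * L := by rw [sum_const, smul_eq_mul]
          _ ≤ 2 * k * L := Nat.mul_le_mul_right _ (le_trans (card_le_card hBV) hVcard)
      · rw [mem_Icc]
        exact abs_le.1 (hck v)
    · rw [card_image_of_injOn hginj]
      exact le_trans (card_le_card hBV) hVcard
    · intro i
      obtain ⟨v, hv, hvi⟩ := exists_mem_eq_inf' hBne (fun v : Fin n → ℕ => v i)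
      refine ⟨g v, mem_image_of_mem g hv, ?_⟩
      rw [hg]
      simp only
      rw [hμ]
      simp only
      rw [hvi, Nat.sub_self]
    · obtain ⟨v0, hv0, v1, hv1, hne01⟩ := hB2
      refine lt_of_lt_of_le (hsep v0 (mem_filter.1 (hBV hv0)).1 v1 (mem_filter.1 (hBV hv1)).1 hne01)
        (card_le_card ?_)
      intro i hi
      have hi' := (mem_filter.1 hi).2
      rw [mem_act]
      have h0 := hμle v0 hv0 i
      have h1 := hμle v1 hv1 i
      by_cases h : v0 i = μ i
      · refine ⟨g v1, mem_image_of_mem g hv1, ?_⟩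
        rw [hg]
        simp only
        omega
      · refine ⟨g v0, mem_image_of_mem g hv0, ?_⟩
        rw [hg]
        simp only
        omega
  · constructor
    · have h1 := hsumg B (subset_refl _)
      rw [hB0] at h1
      rcases mul_eq_zero.1 h1 with h | h
      · exact h
      · exact absurd h (hval μ).ne'
    · intro S hSR hSne hS0
      set B' := B.filter (fun v => g v ∈ S) with hB'
      have hSB : B'.image g = S := by
        ext x
        constructor
        · intro hx
          obtain ⟨v, hv, rfl⟩ := mem_image.1 hx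
          exact (mem_filter.1 hv).2
        · intro hx
          obtain ⟨v, hv, rfl⟩ := mem_image.1 (hSR.1 hx)
          exact mem_image_of_mem g (mem_filter.2 ⟨hv, hx⟩)
      have hB'0 : ∑ v ∈ B', c v * val p v = 0 := by
        rw [← hsumg B' (filter_subset _ _), hSB, hS0, zero_mul]
      have hB'ne : B'.Nonempty := by
        by_contra hem
        rw [not_nonempty_iff_eq_empty] at hem
        rw [hem, image_empty] at hSB
        rw [← hSB] at hSne
        exact not_nonempty_empty hSne
      have h1 := hBmin B' (mem_filter.2 ⟨mem_powerset.2 ((filter_subset _ _).trans hBV),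
        hB'ne, hB'0⟩)
      have h2 : S.card < (B.image g).card := card_lt_card hSR
      rw [← hSB, card_image_of_injOn (hginj.mono (by exact_mod_cast filter_subset _ _)),
        card_image_of_injOn hginj] at h2
      omega

end Pool.Agent.Helper24.AQ
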