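import Pool.Agent.Helper24.AQ.Good

set_option autoImplicit false

namespace Pool.Agent.Helper24.AQ

open Finset

theorem ksum_mul (k : ℕ) (A : Finset ℤ) (D : ℤ) (hD : D ≠ 0) :
    (ksum k (A.image (fun a => D * a))).card = (ksum k A).card := by
  classical
  have h : ksum k (A.image (fun a => D * a)) = (ksum k A).image (fun a => D * a) := by
    ext x
    constructor
    · intro hx
      obtain ⟨f, hf, rfl⟩ := mem_image.1 hx
      rw [Fintype.mem_piFinset] at hf
      have h1 : ∀ i, ∃ a ∈ A, D * a = f i := fun i => by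
        obtain ⟨a, ha, hfa⟩ := mem_image.1 (hf i)
        exact ⟨a, ha, hfa⟩
      choose g hg1 hg2 using h1
      refine mem_image.2 ⟨∑ i, g i, mem_image.2 ⟨g, Fintype.mem_piFinset.2 hg1, rfl⟩, ?_⟩
      rw [mul_sum]
      exact sum_congr rfl (fun i _ => hg2 i)
    · intro hx
      obtain ⟨z, hz, rfl⟩ := mem_image.1 hx
      obtain ⟨f, hf, rfl⟩ := mem_image.1 hz
      rw [Fintype.mem_piFinset] at hf
      refine mem_image.2 ⟨fun i => D * f i, ?_, ?_⟩
      · rw [Fintype.mem_piFinset]
        intro i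
        exact mem_image_of_mem _ (hf i)
      · rw [mul_sum]
  rw [h, card_image_of_injective _ (mul_right_injective₀ hD)]

theorem factorization_prod_pow' (P : Finset ℕ) (hP : ∀ p ∈ P, p.Prime) (m q : ℕ) :
    (∏ p ∈ P, p ^ m).factorization q = if q ∈ P then m else 0 := by
  classical
  rw [Nat.factorization_prod (fun p hp => pow_ne_zero _ (hP p hp).ne_zero), Finsupp.finsetSum_apply]
  have h1 : ∀ p ∈ P, (p ^ m).factorization q = if p = q then m else 0 := by
    intro p hp
    rw [Nat.Prime.factorization_pow (hP p hp), Finsupp.single_apply]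
  rw [sum_congr rfl h1, sum_ite_eq']

/-- The quotient `a / gcd (a, b)`. -/
theorem fac_quot (a b q : ℕ) (ha : a ≠ 0) (hb : b ≠ 0) :
    (a / a.gcd b).factorization q = a.factorization q - b.factorization q := by
  rw [Nat.factorization_div (Nat.gcd_dvd_left a b), Nat.factorization_gcd ha hb,
    Finsupp.tsub_apply, Finsupp.inf_apply]
  omega

theorem clear (P : Finset ℕ) (hP : ∀ p ∈ P, p.Prime) (m : ℕ) (g a : ℤ) (hg : g ≠ 0) (ha : a ≠ 0)
    (hgm : ∀ p, g.natAbs.factorization p ≤ m)
    (h : ∀ p : ℕ, p ∉ P → a.natAbs.factorization p = g.natAbs.factorization p) :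
    ∃ b : ℤ, b ≠ 0 ∧ g * b = ((∏ p ∈ P, p ^ m : ℕ) : ℤ) * a ∧ b.natAbs.primeFactors ⊆ P ∧
      ∀ p ∈ P, g.natAbs.factorization p + b.natAbs.factorization p =
        m + a.natAbs.factorization p := by
  classical
  set D : ℕ := ∏ p ∈ P, p ^ m with hD
  have hD0 : D ≠ 0 := prod_ne_zero_iff.2 (fun p hp => pow_ne_zero _ (hP p hp).ne_zero)
  have hDf : ∀ q, D.factorization q = if q ∈ P then m else 0 := factorization_prod_pow' P hP m
  have ha' : a.natAbs ≠ 0 := Int.natAbs_ne_zero.2 ha
  have hg' : g.natAbs ≠ 0 := Int.natAbs_ne_zero.2 hg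
  have hdvd : g.natAbs ∣ D * a.natAbs := by
    rw [← Nat.factorization_prime_le_iff_dvd hg' (mul_ne_zero hD0 ha')]
    intro p _
    rw [Nat.factorization_mul hD0 ha', Finsupp.add_apply, hDf]
    split_ifs with hpP
    · have := hgm p
      omega
    · have := h p hpP
      omega
  have hdvd' : g ∣ (D : ℤ) * a := by
    rw [← Int.natAbs_dvd_natAbs, Int.natAbs_mul, Int.natAbs_natCast]
    exact hdvd
  obtain ⟨b, hb⟩ := hdvd'
  have hb0 : b ≠ 0 := by
    rintro rfl
    rw [mul_zero] at hb
    have : (D : ℤ) ≠ 0 := by exact_mod_cast hD0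
    exact mul_ne_zero this ha hb
  have hb' : b.natAbs ≠ 0 := Int.natAbs_ne_zero.2 hb0
  have hfac : ∀ p, D.factorization p + a.natAbs.factorization p =
      g.natAbs.factorization p + b.natAbs.factorization p := by
    intro p
    rw [← Finsupp.add_apply, ← Finsupp.add_apply, ← Nat.factorization_mul hD0 ha',
      ← Nat.factorization_mul hg' hb']
    congr 1
    have := congrArg Int.natAbs hb
    rw [Int.natAbs_mul, Int.natAbs_mul, Int.natAbs_natCast] at this
    rw [this]
  refine ⟨b, hb0, hb.symm, ?_, ?_⟩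
  · intro p hp
    have hpp := Nat.prime_of_mem_primeFactors hp
    by_contra hpP
    have h1 := hfac p
    rw [hDf, if_neg hpP, h p hpP] at h1
    have h5 : b.natAbs.factorization p = 0 := by omega
    have h6 : 0 < b.natAbs.factorization p :=
      hpp.factorization_pos_of_dvd hb' (Nat.dvd_of_mem_primeFactors hp)
    omega
  · intro p hp
    have h1 := hfac p
    rw [hDf, if_pos hp] at h1
    exact h1.symm

end Pool.Agent.Helper24.AQ
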