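import Mathlib

set_option autoImplicit false

namespace Pool.Agent.Helper24.AQ

open Finset

/-- The integer with exponent vector `e` with respect to the tuple `p`. -/
def val {n : ℕ} (p : Fin n → ℕ) (e : Fin n → ℕ) : ℤ := ∏ i, (p i : ℤ) ^ (e i)

/-- The relation with terms `x.2 * p ^ x.1`, `x ∈ R`, holds and no proper subsum vanishes. -/
def Rel {n : ℕ} (p : Fin n → ℕ) (R : Finset ((Fin n → ℕ) × ℤ)) : Prop :=
  (∑ x ∈ R, x.2 * val p x.1 = 0) ∧
    ∀ S : Finset ((Fin n → ℕ) × ℤ), S ⊂ R → S.Nonempty → ∑ x ∈ S, x.2 * val p x.1 ≠ 0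

/-- The coordinates which occur in `R`. -/
noncomputable def act {n : ℕ} (R : Finset ((Fin n → ℕ) × ℤ)) : Finset (Fin n) := by
  classical
  exact univ.filter (fun i => ∃ x ∈ R, x.1 i ≠ 0)

/-- Forget the coordinates in `D`. -/
def mask {n : ℕ} (D : Finset (Fin n)) (p : Fin n → ℕ) : Fin n → ℕ :=
  fun i => if i ∈ D then 0 else p i

theorem count_le {n : ℕ} (Q : Finset ℕ) (D : Finset (Fin n)) (s : Finset (Fin n → ℕ))
    (hs : s ⊆ Fintype.piFinset (fun _ => Q)) (T : (Fin n → ℕ) → Finset ℕ) (W : ℕ)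
    (hT : ∀ p ∈ s, ∀ j ∈ D, p j ∈ T (mask D p)) (hW : ∀ p ∈ s, (T (mask D p)).card ≤ W) :
    s.card ≤ W ^ D.card * Q.card ^ (n - D.card) := by
  classical
  have h1 : s.card ≤ W ^ D.card * (s.image (mask D)).card := by
    apply card_le_mul_card_image
    intro h hh
    obtain ⟨p0, hp0, rfl⟩ := mem_image.1 hh
    have hsub : s.filter (fun p => mask D p = mask D p0) ⊆
        Fintype.piFinset (fun i => if i ∈ D then T (mask D p0) else {p0 i}) := by
      intro p hp
      obtain ⟨hp1, hp2⟩ := mem_filter.1 hp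
      rw [Fintype.mem_piFinset]
      intro i
      by_cases hi : i ∈ D
      · simp only [hi, if_true]
        rw [← hp2]
        exact hT p hp1 i hi
      · simp only [hi, if_false, mem_singleton]
        have := congrFun hp2 i
        simpa [mask, hi] using this
    refine le_trans (card_le_card hsub) ?_
    rw [Fintype.card_piFinset]
    have h2 : ∀ i : Fin n, (if i ∈ D then T (mask D p0) else ({p0 i} : Finset ℕ)).card =
        if i ∈ D then (T (mask D p0)).card else 1 := by
      intro i; split_ifs <;> simp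
    rw [prod_congr rfl (fun i _ => h2 i), prod_ite, prod_const_one, mul_one, prod_const]
    have h3 : (univ.filter (fun i => i ∈ D)).card = D.card := by
      congr 1; ext i; simp
    rw [h3]
    exact Nat.pow_le_pow_left (hW p0 hp0) _
  refine le_trans h1 (Nat.mul_le_mul_left _ ?_)
  have hsub : s.image (mask D) ⊆ Fintype.piFinset (fun i => if i ∈ D then {0} else Q) := by
    intro h hh
    obtain ⟨p0, hp0, rfl⟩ := mem_image.1 hh
    rw [Fintype.mem_piFinset]
    intro i
    by_cases hi : i ∈ D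
    · simp [mask, hi]
    · simp only [mask, hi, if_false]
      exact Fintype.mem_piFinset.1 (hs hp0) i
  refine le_trans (card_le_card hsub) ?_
  rw [Fintype.card_piFinset]
  have h2 : ∀ i : Fin n, (if i ∈ D then ({0} : Finset ℕ) else Q).card =
      if i ∈ D then 1 else Q.card := by
    intro i; split_ifs <;> simp
  rw [prod_congr rfl (fun i _ => h2 i), prod_ite, prod_const_one, one_mul, prod_const]
  have h3 : (univ.filter (fun i => i ∉ D)).card = n - D.card := by
    have : univ.filter (fun i => i ∉ D) = Dᶜ := by ext i; simp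
    rw [this, card_compl, Fintype.card_fin]
  rw [h3]

theorem val_mask {n : ℕ} (D : Finset (Fin n)) (p e : Fin n → ℕ) (h : ∀ i ∈ D, e i = 0) :
    val (mask D p) e = val p e := by
  unfold val
  refine prod_congr rfl (fun i _ => ?_)
  by_cases hi : i ∈ D
  · simp [h i hi]
  · simp [mask, hi]

theorem val_pos {n : ℕ} (p e : Fin n → ℕ) (hp : ∀ i, 1 ≤ p i) : 0 < val p e := by
  unfold val
  exact prod_pos (fun i _ => pow_pos (by exact_mod_cast (hp i)) _)

theorem val_le {n : ℕ} (p e : Fin n → ℕ) (y L : ℕ) (hy : 1 ≤ y) (hp : ∀ i, p i ≤ y)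
    (he : ∑ i, e i ≤ L) : val p e ≤ (y : ℤ) ^ L := by
  have h1 : val p e ≤ (y : ℤ) ^ (∑ i, e i) := by
    unfold val
    rw [← prod_pow_eq_pow_sum]
    refine prod_le_prod (fun i _ => by positivity) (fun i _ => ?_)
    exact pow_le_pow_left₀ (by positivity) (by exact_mod_cast (hp i)) _
  exact le_trans h1 (pow_le_pow_right₀ (by exact_mod_cast hy) he)

/-- The number of primes in `Q` dividing `Y`. -/
theorem div_count (Q : Finset ℕ) (hQ : ∀ q ∈ Q, q.Prime) (Y : ℤ) (hY : Y ≠ 0) (z : ℕ) :
    ∃ r : ℕ, (Q.filter (fun q : ℕ => (q : ℤ) ∣ Y)).card ≤ z + r ∧ (z : ℤ) ^ r ≤ |Y| := by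
  classical
  set R := Q.filter (fun q : ℕ => (q : ℤ) ∣ Y) with hR
  refine ⟨(R.filter (fun q => z ≤ q)).card, ?_, ?_⟩
  · have h1 : R.card = (R.filter (fun q => z ≤ q)).card + (R.filter (fun q => ¬ z ≤ q)).card :=
      (card_filter_add_card_filter_not _).symm
    have h2 : (R.filter (fun q => ¬ z ≤ q)).card ≤ z := by
      have : R.filter (fun q => ¬ z ≤ q) ⊆ range z := by
        intro q hq
        have := (mem_filter.1 hq).2
        exact mem_range.2 (by omega)
      simpa using card_le_card this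
    omega
  · have h1 : (∏ q ∈ R.filter (fun q => z ≤ q), q) ∣ Y.natAbs := by
      apply prod_primes_dvd
      · intro q hq
        exact (hQ q (mem_filter.1 (mem_filter.1 hq).1).1).prime
      · intro q hq
        have := (mem_filter.1 (mem_filter.1 hq).1).2
        exact Int.natCast_dvd.1 this
    have h2 : z ^ (R.filter (fun q => z ≤ q)).card ≤ ∏ q ∈ R.filter (fun q => z ≤ q), q := by
      apply pow_card_le_prod
      intro q hq
      exact (mem_filter.1 hq).2
    have h3 := Nat.le_of_dvd (Int.natAbs_pos.2 hY) h1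
    have h4 : z ^ (R.filter (fun q => z ≤ q)).card ≤ Y.natAbs := le_trans h2 h3
    rw [← Int.natCast_natAbs]
    exact_mod_cast h4

end Pool.Agent.Helper24.AQ
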