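import Pool.Agent.Helper24.AQ.Sub

set_option autoImplicit false

namespace Pool.Agent.Helper24.AQ

open Finset

theorem card_supp (n L T : ℕ) (D : Finset (Fin n)) (hD : T < D.card) :
    ((((exps n L).filter (fun e => ∀ i, i ∉ D → e i = 0)).card : ℕ) : ℝ) ≤
      (Real.exp 1 * (1 + (L + 1) / (T + 1))) ^ D.card := by
  classical
  set v : ℝ := (T + 1) / (L + 1) with hv
  have hv0 : 0 < v := by positivity
  set x : ℝ := Real.exp (-v) with hx
  have hx0 : 0 < x := Real.exp_pos _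
  have hx1 : x < 1 := by
    rw [hx, Real.exp_lt_one_iff]
    linarith
  set X : Finset (Fin n → ℕ) := (exps n L).filter (fun e => ∀ i, i ∉ D → e i = 0) with hX
  have h1 : (X.card : ℝ) * x ^ L ≤ ∑ e ∈ X, ∏ i, x ^ (e i) := by
    rw [← nsmul_eq_mul, ← sum_const]
    refine sum_le_sum (fun e he => ?_)
    rw [prod_pow_eq_pow_sum]
    exact pow_le_pow_of_le_one hx0.le hx1.le (mem_exps.1 (mem_filter.1 he).1)
  have h2 : ∑ e ∈ X, ∏ i, x ^ (e i) ≤
      ∑ e ∈ Fintype.piFinset (fun i : Fin n => if i ∈ D then range (L + 1) else {0}),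
        ∏ i, x ^ (e i) := by
    apply sum_le_sum_of_subset_of_nonneg
    · intro e he
      obtain ⟨he1, he2⟩ := mem_filter.1 he
      rw [Fintype.mem_piFinset]
      intro i
      by_cases hi : i ∈ D
      · simp only [hi, if_true]
        apply mem_range.2
        have h3 := mem_exps.1 he1
        have h4 := single_le_sum (f := e) (fun j _ => Nat.zero_le _) (mem_univ i)
        omega
      · simp only [hi, if_false, mem_singleton]
        exact he2 i hi
    · intro e _ _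
      exact prod_nonneg (fun i _ => (pow_pos hx0 _).le)
  have hgeom : ∑ t ∈ range (L + 1), x ^ t ≤ 1 + 1 / v := by
    have h3 : ∑ t ∈ range (L + 1), x ^ t ≤ 1 / (1 - x) := by
      rw [geom_sum_eq hx1.ne]
      have h4 : (x ^ (L + 1) - 1) / (x - 1) = (1 - x ^ (L + 1)) / (1 - x) := by
        rw [← neg_div_neg_eq]; ring
      rw [h4]
      apply div_le_div_of_nonneg_right _ (by linarith)
      have : 0 ≤ x ^ (L + 1) := by positivity
      linarith
    refine le_trans h3 ?_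
    have h4 : x ≤ 1 / (1 + v) := by
      rw [hx, Real.exp_neg, inv_eq_one_div]
      apply div_le_div_of_nonneg_left (by norm_num) (by positivity)
      have := Real.add_one_le_exp v
      linarith
    have h5 : v / (1 + v) ≤ 1 - x := by
      have h6 : v / (1 + v) = 1 - 1 / (1 + v) := by field_simp; ring
      rw [h6]
      linarith
    calc 1 / (1 - x) ≤ 1 / (v / (1 + v)) :=
          div_le_div_of_nonneg_left (by norm_num) (by positivity) h5
      _ = 1 + 1 / v := by field_simp; ring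
  have h3 : ∑ e ∈ Fintype.piFinset (fun i : Fin n => if i ∈ D then range (L + 1) else {0}),
        ∏ i, x ^ (e i) ≤ (1 + 1 / v) ^ D.card := by
    rw [← prod_univ_sum (fun i : Fin n => if i ∈ D then range (L + 1) else {0})
      (fun _ t => x ^ t)]
    have h4 : ∀ i : Fin n, ∑ t ∈ (if i ∈ D then range (L + 1) else ({0} : Finset ℕ)), x ^ t =
        if i ∈ D then ∑ t ∈ range (L + 1), x ^ t else 1 := by
      intro i
      split_ifs <;> simp
    rw [prod_congr rfl (fun i _ => h4 i), prod_ite, prod_const_one, mul_one, prod_const]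
    have h5 : (univ.filter (fun i => i ∈ D)).card = D.card := by
      congr 1; ext i; simp
    rw [h5]
    exact pow_le_pow_left₀ (sum_nonneg (fun t _ => (pow_pos hx0 t).le)) hgeom _
  have h4 : Real.exp (-((T : ℝ) + 1)) ≤ x ^ L := by
    rw [hx, ← Real.exp_nat_mul]
    apply Real.exp_le_exp.2
    have h5 : (L : ℝ) * v ≤ T + 1 := by
      rw [hv, ← mul_div_assoc, div_le_iff₀ (by positivity)]
      have h6 : (0 : ℝ) ≤ T := by positivity
      have h7 : (0 : ℝ) ≤ L := by positivity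
      nlinarith
    linarith
  have h5 : (X.card : ℝ) * Real.exp (-((T : ℝ) + 1)) ≤ (1 + 1 / v) ^ D.card := by
    refine le_trans (mul_le_mul_of_nonneg_left h4 (Nat.cast_nonneg _)) ?_
    linarith
  have h6 : (X.card : ℝ) = (X.card : ℝ) * Real.exp (-((T : ℝ) + 1)) * Real.exp ((T : ℝ) + 1) := by
    rw [mul_assoc, ← Real.exp_add]
    simp
  rw [h6, mul_pow]
  have h7 : Real.exp ((T : ℝ) + 1) ≤ Real.exp 1 ^ D.card := by
    rw [← Real.exp_nat_mul]
    apply Real.exp_le_exp.2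
    rw [mul_one]
    exact_mod_cast hD
  have h8 : 1 + 1 / v = 1 + ((L : ℝ) + 1) / (T + 1) := by rw [hv, one_div_div]
  rw [h8] at h5
  calc (X.card : ℝ) * Real.exp (-((T : ℝ) + 1)) * Real.exp ((T : ℝ) + 1)
      ≤ (1 + ((L : ℝ) + 1) / (T + 1)) ^ D.card * Real.exp 1 ^ D.card :=
        mul_le_mul h5 h7 (Real.exp_pos _).le (by positivity)
    _ = _ := by ring

theorem card_fam_act (n k L T : ℕ) (D : Finset (Fin n)) (hD : T < D.card)
    [DecidableEq (Finset (Fin n))] (M : ℝ)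
    (hM : Real.exp 1 * (1 + ((L : ℝ) + 1) / (T + 1)) ≤ M) :
    (((relFam n k L T).filter (fun R => act R = D)).card : ℝ) ≤
      (2 * k + 1) ^ (2 * k + 1) * (M ^ (2 * k)) ^ D.card := by
  classical
  set X : Finset (Fin n → ℕ) := (exps n L).filter (fun e => ∀ i, i ∉ D → e i = 0) with hX
  have hM1 : 1 ≤ M := by
    refine le_trans ?_ hM
    have h1 : (1 : ℝ) ≤ Real.exp 1 := Real.one_le_exp (by norm_num)
    have h2 : (1 : ℝ) ≤ 1 + ((L : ℝ) + 1) / (T + 1) := by
      have : (0 : ℝ) ≤ ((L : ℝ) + 1) / (T + 1) := by positivity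
      linarith
    exact one_le_mul_of_one_le_of_one_le h1 h2
  have hXc : (X.card : ℝ) ≤ M ^ D.card :=
    le_trans (card_supp n L T D hD) (pow_le_pow_left₀ (by positivity) hM _)
  have h1 : (relFam n k L T).filter (fun R => act R = D) ⊆
      (X ×ˢ Icc (-(k : ℤ)) k).powerset.filter (fun R => R.card ≤ 2 * k) := by
    intro R hR
    obtain ⟨hR1, hR2⟩ := mem_filter.1 hR
    rw [mem_relFam] at hR1
    refine mem_filter.2 ⟨mem_powerset.2 ?_, hR1.2.1⟩
    intro x hx
    have h3 := hR1.1 hx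
    rw [mem_product] at h3 ⊢
    refine ⟨?_, h3.2⟩
    refine mem_filter.2 ⟨h3.1, ?_⟩
    intro i hi
    by_contra hne
    apply hi
    rw [← hR2, mem_act]
    exact ⟨x, hx, hne⟩
  have h2 := card_small_subsets (X ×ˢ Icc (-(k : ℤ)) k) (2 * k)
  have h3 : ((X ×ˢ Icc (-(k : ℤ)) k).card : ℝ) ≤ M ^ D.card * (2 * k + 1) := by
    rw [card_product, Int.card_Icc]
    push_cast
    have h4 : (((k : ℤ) + 1 - -(k : ℤ)).toNat : ℝ) = 2 * k + 1 := by
      have : ((k : ℤ) + 1 - -(k : ℤ)).toNat = 2 * k + 1 := by omega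
      rw [this]; push_cast; ring
    rw [h4]
    exact mul_le_mul_of_nonneg_right hXc (by positivity)
  have h5 : (1 : ℝ) ≤ M ^ D.card * (2 * k + 1) := by
    have h6 : (1 : ℝ) ≤ M ^ D.card := one_le_pow₀ hM1
    have h7 : (1 : ℝ) ≤ 2 * k + 1 := by
      have : (0 : ℝ) ≤ k := by positivity
      linarith
    nlinarith
  calc (((relFam n k L T).filter (fun R => act R = D)).card : ℝ)
      ≤ (((X ×ˢ Icc (-(k : ℤ)) k).powerset.filter (fun R => R.card ≤ 2 * k)).card : ℝ) := by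
        exact_mod_cast card_le_card h1
    _ ≤ ((2 * k : ℕ) + 1) * (max 1 ((X ×ˢ Icc (-(k : ℤ)) k).card : ℝ)) ^ (2 * k) := h2
    _ ≤ (2 * k + 1) * (M ^ D.card * (2 * k + 1)) ^ (2 * k) := by
        push_cast
        apply mul_le_mul_of_nonneg_left _ (by positivity)
        exact pow_le_pow_left₀ (by positivity) (max_le h5 h3) _
    _ = (2 * k + 1) ^ (2 * k + 1) * (M ^ (2 * k)) ^ D.card := by
        rw [mul_pow, ← pow_mul, ← pow_mul, mul_comm D.card (2 * k)]
        ring

theorem fam_sum (n k L T : ℕ) (M ρ l : ℝ)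
    (hM : Real.exp 1 * (1 + ((L : ℝ) + 1) / (T + 1)) ≤ M) (hρ0 : 0 < ρ) (hl : 1 ≤ l) :
    ∑ R ∈ relFam n k L T, ρ ^ (((act R).card : ℝ) / 4 ^ k) ≤
      (2 * k + 1) ^ (2 * k + 1) * (1 / l) ^ (T + 1) *
        (1 + l * (M ^ (2 * k) * ρ ^ (1 / (4 : ℝ) ^ k))) ^ n := by
  classical
  have hM0 : 0 ≤ M := le_trans (by positivity) hM
  set x : ℝ := M ^ (2 * k) * ρ ^ (1 / (4 : ℝ) ^ k) with hx
  have hl0 : 0 < l := by linarith
  have hx0 : 0 ≤ x := by positivity
  set C : ℝ := (2 * k + 1) ^ (2 * k + 1) with hC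
  have hC0 : 0 ≤ C := by positivity
  have hpow : ∀ d : ℕ, ρ ^ ((d : ℝ) / 4 ^ k) = (ρ ^ (1 / (4 : ℝ) ^ k)) ^ d := by
    intro d
    rw [← Real.rpow_natCast (ρ ^ (1 / (4 : ℝ) ^ k)) d, ← Real.rpow_mul hρ0.le]
    congr 1
    ring
  have h1 : ∑ R ∈ relFam n k L T, ρ ^ (((act R).card : ℝ) / 4 ^ k) =
      ∑ D ∈ (univ : Finset (Finset (Fin n))), ∑ R ∈ (relFam n k L T).filter (fun R => act R = D),
        ρ ^ (((act R).card : ℝ) / 4 ^ k) :=
    (sum_fiberwise_of_maps_to (fun R _ => mem_univ (act R)) _).symm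
  rw [h1]
  have h2 : ∀ D ∈ (univ : Finset (Finset (Fin n))),
      ∑ R ∈ (relFam n k L T).filter (fun R => act R = D), ρ ^ (((act R).card : ℝ) / 4 ^ k) ≤
      C * (1 / l) ^ (T + 1) * (l * x) ^ D.card := by
    intro D _
    have h3 : ∑ R ∈ (relFam n k L T).filter (fun R => act R = D),
        ρ ^ (((act R).card : ℝ) / 4 ^ k) =
        ((relFam n k L T).filter (fun R => act R = D)).card * (ρ ^ (1 / (4 : ℝ) ^ k)) ^ D.card := by
      rw [← nsmul_eq_mul, ← sum_const]
      refine sum_congr rfl (fun R hR => ?_)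
      rw [(mem_filter.1 hR).2, hpow]
    rw [h3]
    rcases le_or_gt D.card T with hD | hD
    · have h4 : (relFam n k L T).filter (fun R => act R = D) = ∅ := by
        rw [eq_empty_iff_forall_notMem]
        intro R hR
        obtain ⟨hR1, hR2⟩ := mem_filter.1 hR
        have := (mem_relFam.1 hR1).2.2.2
        rw [hR2] at this
        omega
      rw [h4]
      simp only [card_empty, Nat.cast_zero, zero_mul]
      positivity
    · have h4 := card_fam_act n k L T D hD M hM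
      calc (((relFam n k L T).filter (fun R => act R = D)).card : ℝ) *
            (ρ ^ (1 / (4 : ℝ) ^ k)) ^ D.card
          ≤ (C * (M ^ (2 * k)) ^ D.card) * (ρ ^ (1 / (4 : ℝ) ^ k)) ^ D.card :=
            mul_le_mul_of_nonneg_right h4 (by positivity)
        _ = C * x ^ D.card := by rw [hx, mul_pow]; ring
        _ ≤ C * (1 / l) ^ (T + 1) * (l * x) ^ D.card := by
            rw [mul_assoc]
            apply mul_le_mul_of_nonneg_left _ hC0
            have h5 : (1 / l) ^ (T + 1) * (l * x) ^ D.card = l ^ (D.card - (T + 1)) * x ^ D.card := by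
              rw [mul_pow, ← mul_assoc]
              congr 1
              have h7 : l ^ D.card = l ^ (T + 1) * l ^ (D.card - (T + 1)) := by
                rw [← pow_add]
                congr 1
                omega
              rw [h7, ← mul_assoc, ← mul_pow, one_div, inv_mul_cancel₀ hl0.ne', one_pow, one_mul]
            rw [h5]
            have h6 : (1 : ℝ) ≤ l ^ (D.card - (T + 1)) := one_le_pow₀ hl
            have h7 : 0 ≤ x ^ D.card := by positivity
            nlinarith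
  refine le_trans (sum_le_sum h2) ?_
  rw [← mul_sum]
  apply le_of_eq
  congr 1
  have h3 := sum_pow_mul_eq_add_pow (l * x) 1 (univ : Finset (Fin n))
  simp only [one_pow, mul_one, powerset_univ, card_univ, Fintype.card_fin] at h3
  rw [h3, add_comm]

/-- The exceptional tuples. -/
theorem bad_tuples (n k L T y W : ℕ) (Q : Finset ℕ) (hy : 1 ≤ y) (hQ : ∀ q ∈ Q, q.Prime)
    (hQy : ∀ q ∈ Q, q ≤ y)
    (hW : ∀ Y : ℤ, Y ≠ 0 → |Y| ≤ (2 * k * k : ℕ) * (y : ℤ) ^ L →
      (Q.filter (fun q : ℕ => (q : ℤ) ∣ Y)).card ≤ W)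
    (M ρ l : ℝ) (hM : Real.exp 1 * (1 + ((L : ℝ) + 1) / (T + 1)) ≤ M) (hρ0 : 0 < ρ) (hρ1 : ρ ≤ 1) (hWρ : (W : ℝ) ≤ ρ * Q.card) (hl : 1 ≤ l) :
    ∃ S : Finset (Fin n → ℕ), (S.card : ℝ) ≤ ((2 * k + 1) ^ (2 * k + 1) * (1 / l) ^ (T + 1) *
        (1 + l * (M ^ (2 * k) * ρ ^ (1 / (4 : ℝ) ^ k))) ^ n) * (Q.card : ℝ) ^ n ∧
      ∀ p : Fin n → ℕ, (∀ i, p i ∈ Q) → p ∉ S → ∀ R ∈ relFam n k L T, ¬ Rel p R := by
  classical
  refine ⟨(Fintype.piFinset (fun _ : Fin n => Q)).filter
    (fun p => ∃ R ∈ relFam n k L T, Rel p R), ?_, ?_⟩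
  · have h1 := union_le (n := n) Q hQ k y L W hy hQy hW ρ hρ0 hρ1 hWρ (relFam n k L T)
      (fun R hR => (mem_relFam.1 hR).2.1)
      (fun R hR x hx => by
        have h2 := (mem_relFam.1 hR).1 hx
        rw [mem_product] at h2
        exact ⟨mem_exps.1 h2.1, abs_le.2 (mem_Icc.1 h2.2)⟩)
      (fun R hR => (mem_relFam.1 hR).2.2.1)
    refine le_trans h1 ?_
    exact mul_le_mul_of_nonneg_right (fam_sum n k L T M ρ l hM hρ0 hl) (by positivity)
  · intro p hpQ hpS R hR hRel
    exact hpS (mem_filter.2 ⟨Fintype.mem_piFinset.2 hpQ, R, hR, hRel⟩)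

end Pool.Agent.Helper24.AQ
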