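import Pool.Agent.Helper24.AQ.Main
import Pool.Agent.Helper24.AQ.Clear

set_option autoImplicit false

namespace Pool.Agent.Helper24.AQ

open Finset

theorem sum_fac_le {n : ℕ} (p : Fin n → ℕ) (hinj : Function.Injective p) (r : ℕ) :
    ∑ i, r.factorization (p i) ≤ r.primeFactorsList.length := by
  classical
  rw [← ArithmeticFunction.cardFactors_apply, ArithmeticFunction.cardFactors_eq_sum_factorization]
  have h2 : ∑ i, r.factorization (p i) = ∑ q ∈ univ.image p, r.factorization q := by
    rw [sum_image (fun x _ y _ h => hinj h)]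
  rw [h2, Finsupp.sum]
  have h3 : ∑ q ∈ univ.image p, r.factorization q =
      ∑ q ∈ (univ.image p).filter (fun q => r.factorization q ≠ 0), r.factorization q := by
    rw [sum_filter]
    refine sum_congr rfl (fun q _ => ?_)
    split_ifs with h
    · rfl
    · rw [not_not] at h
      exact h
  rw [h3]
  apply sum_le_sum_of_subset_of_nonneg
  · intro q hq
    exact Finsupp.mem_support_iff.2 (mem_filter.1 hq).2
  · intro _ _ _
    exact Nat.zero_le _

/-- The numerator of `a / b`. -/
theorem num_fac (a b : ℤ) (ha : a ≠ 0) (hb : b ≠ 0) (q : ℕ) (hq : q.Prime) :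
    ((a : ℚ) / b).num.natAbs.factorization q =
      a.natAbs.factorization q - b.natAbs.factorization q := by
  set r : ℚ := (a : ℚ) / b with hr
  have hbq : (b : ℚ) ≠ 0 := by exact_mod_cast hb
  have haq : (a : ℚ) ≠ 0 := by exact_mod_cast ha
  have hr0 : r ≠ 0 := div_ne_zero haq hbq
  have hnum : r.num.natAbs ≠ 0 := Int.natAbs_ne_zero.2 (Rat.num_ne_zero.2 hr0)
  have hden : r.den ≠ 0 := r.den_nz
  have h1 : r.num * b = a * r.den := by
    have h2 : (r.num : ℚ) / r.den = a / b := by rw [Rat.num_div_den, hr]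
    have hd : (r.den : ℚ) ≠ 0 := by exact_mod_cast hden
    rw [div_eq_div_iff hd hbq] at h2
    exact_mod_cast h2
  have h2 : r.num.natAbs * b.natAbs = a.natAbs * r.den := by
    have := congrArg Int.natAbs h1
    rwa [Int.natAbs_mul, Int.natAbs_mul, Int.natAbs_natCast] at this
  have h3 : r.num.natAbs.factorization q + b.natAbs.factorization q =
      a.natAbs.factorization q + r.den.factorization q := by
    rw [← Finsupp.add_apply, ← Finsupp.add_apply,
      ← Nat.factorization_mul hnum (Int.natAbs_ne_zero.2 hb),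
      ← Nat.factorization_mul (Int.natAbs_ne_zero.2 ha) hden, h2]
  have h4 : r.num.natAbs.factorization q = 0 ∨ r.den.factorization q = 0 := by
    by_contra hno
    push Not at hno
    have h5 : q ∣ r.num.natAbs := Nat.dvd_of_factorization_pos hno.1
    have h6 : q ∣ r.den := Nat.dvd_of_factorization_pos hno.2
    have h7 := Nat.dvd_gcd h5 h6
    rw [r.reduced] at h7
    exact hq.one_lt.ne' (Nat.dvd_one.1 h7)
  omega

theorem final (k : ℕ) (hk : 1 ≤ k) (ε : ℝ) (hε : 0 < ε) (τ : ℝ) (hτ : 0 < τ) :
    ∃ c : ℝ, 0 < c ∧ ∀ (y : ℕ) (Q : Finset ℕ), (∀ q ∈ Q, q.Prime ∧ q ≤ y) →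
      (y : ℝ) ^ τ ≤ Q.card → ∀ n : ℕ, 1 ≤ n → (n : ℝ) ≤ c * Q.card →
      ∃ B ⊆ Q.powersetCard n,
        (B.card : ℝ) ≤ ((n : ℝ) / Q.card) ^ (c + (n : ℝ) ^ 2 / Q.card) *
          (Q.powersetCard n).card ∧
        ∀ P ∈ Q.powersetCard n, P ∉ B → ∀ A : Finset ℤ, (0 : ℤ) ∉ A →
          (∀ a ∈ A, ∀ b ∈ A, ((a : ℚ) / b).num.natAbs.primeFactors ⊆ P ∧
            ((((a : ℚ) / b).num.natAbs.primeFactorsList.length : ℕ) : ℝ) ≤
              n * ((Q.card : ℝ) / n) ^ c) →
          Real.exp (n * ((n : ℝ) / Q.card) ^ c) ≤ A.card →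
          c * (A.card : ℝ) ^ ((k : ℝ) - ε) ≤ (ksum k A).card := by
  classical
  obtain ⟨s, δ0, hs0, hs1, hδ0, hδ1, hcore⟩ := core k hk ε hε τ hτ
  have hfac : (0 : ℝ) < k.factorial := by exact_mod_cast k.factorial_pos
  set c : ℝ := min (min δ0 s) (1 / (2 ^ k * k.factorial)) with hc
  have hc0 : 0 < c := lt_min (lt_min hδ0 hs0) (by positivity)
  have hc1 : c ≤ δ0 := le_trans (min_le_left _ _) (min_le_left _ _)
  have hc2 : c ≤ s := le_trans (min_le_left _ _) (min_le_right _ _)
  have hc3 : c ≤ 1 / (2 ^ k * k.factorial) := min_le_right _ _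
  refine ⟨c, hc0, ?_⟩
  intro y Q hQ hQc n hn hnc
  have hn0 : (0 : ℝ) < n := by exact_mod_cast hn
  have hQ0 : (0 : ℝ) < Q.card := by
    by_contra h
    have h1 : (Q.card : ℝ) = 0 := le_antisymm (not_lt.1 h) (Nat.cast_nonneg _)
    rw [h1, mul_zero] at hnc
    linarith
  set d : ℝ := (n : ℝ) / Q.card with hd
  have hd0 : 0 < d := div_pos hn0 hQ0
  have hdc : d ≤ c := by rw [hd, div_le_iff₀ hQ0]; exact hnc
  have hd1 : d ≤ 1 := by linarith
  have hinv : (Q.card : ℝ) / n = d⁻¹ := by rw [hd, inv_div]
  have hinvc : ((Q.card : ℝ) / n) ^ c ≤ d ^ (-s) := by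
    rw [hinv, Real.inv_rpow hd0.le, ← Real.rpow_neg hd0.le]
    exact Real.rpow_le_rpow_of_exponent_ge hd0 hd1 (by linarith)
  set L : ℕ := ⌊n * d ^ (-s)⌋₊ with hLdef
  have hLle : (L : ℝ) ≤ n * d ^ (-s) :=
    Nat.floor_le (mul_nonneg hn0.le (Real.rpow_pos_of_pos hd0 _).le)
  obtain ⟨T, S, hScard, hSgood, hnb⟩ :=
    hcore y Q hQ hQc n hn d hd hd0 (le_trans hdc hc1) L hLle
  set B := (Q.powersetCard n).filter (fun P => ∀ p : Fin n → ℕ, Function.Injective p →
    univ.image p = P → p ∈ S) with hB
  refine ⟨B, filter_subset _ _, ?_, ?_⟩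
  · have h1 : n.factorial * B.card ≤ S.card :=
      subset_count Q B (filter_subset _ _) S (fun P hP => (mem_filter.1 hP).2)
    have h2 : 2 * n ≤ Q.card := by
      have : (2 * n : ℝ) ≤ Q.card := by
        have h3 : (n : ℝ) = d * Q.card := by rw [hd]; field_simp
        have h4 : d * Q.card ≤ 1 / 3 * Q.card := mul_le_mul_of_nonneg_right (by linarith) hQ0.le
        linarith
      exact_mod_cast this
    have h3 := pow_le_choose_exp Q.card n hn h2
    have hf : (0 : ℝ) < n.factorial := by exact_mod_cast n.factorial_pos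
    have h4 : ((n.factorial : ℕ) : ℝ) * B.card ≤ S.card := by exact_mod_cast h1
    have h5 : (S.card : ℝ) * Real.exp (2 * d * n) ≤
        (d ^ (s + d * n) * (n.factorial * (Q.card.choose n : ℕ))) * Real.exp (2 * d * n) := by
      refine le_trans hScard ?_
      refine le_trans (mul_le_mul_of_nonneg_left h3 (Real.rpow_pos_of_pos hd0 _).le) ?_
      apply le_of_eq
      ring
    have h6 := le_of_mul_le_mul_right h5 (Real.exp_pos _)
    have h7 : (B.card : ℝ) ≤ d ^ (s + d * n) * (Q.card.choose n : ℕ) := by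
      have h8 : ((n.factorial : ℕ) : ℝ) * B.card ≤
          n.factorial * (d ^ (s + d * n) * (Q.card.choose n : ℕ)) := by
        refine le_trans h4 (le_trans h6 (le_of_eq ?_))
        ring
      exact le_of_mul_le_mul_left h8 hf
    rw [card_powersetCard]
    refine le_trans h7 ?_
    apply mul_le_mul_of_nonneg_right _ (Nat.cast_nonneg _)
    apply Real.rpow_le_rpow_of_exponent_ge hd0 hd1
    have h8 : (n : ℝ) ^ 2 / Q.card = d * n := by rw [hd]; ring
    rw [h8]
    linarith
  · intro P hP hPB A hA0' hA hAcard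
    have h1 : ¬ ∀ p : Fin n → ℕ, Function.Injective p → univ.image p = P → p ∈ S :=
      fun h => hPB (mem_filter.2 ⟨hP, h⟩)
    push Not at h1
    obtain ⟨p, hinj, himg, hpS⟩ := h1
    have hpQ : ∀ i, p i ∈ Q := fun i =>
      (mem_powersetCard.1 hP).1 (himg ▸ mem_image_of_mem p (mem_univ i))
    have hpP : ∀ i, p i ∈ P := fun i => himg ▸ mem_image_of_mem p (mem_univ i)
    have hPp : ∀ q ∈ P, q.Prime := fun q hq => (hQ q ((mem_powersetCard.1 hP).1 hq)).1
    have hgood := hSgood p hpQ hpS
    have hA0 : (0 : ℝ) < A.card := lt_of_lt_of_le (Real.exp_pos _) hAcard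
    set E : ℝ := Real.exp (n * d ^ s) ^ ε with hE
    have hE0 : 0 < E := Real.rpow_pos_of_pos (Real.exp_pos _) _
    have hEA : E ≤ (A.card : ℝ) ^ ε := by
      rw [hE]
      apply Real.rpow_le_rpow (Real.exp_pos _).le _ hε.le
      refine le_trans (Real.exp_le_exp.2 ?_) hAcard
      apply mul_le_mul_of_nonneg_left _ hn0.le
      exact Real.rpow_le_rpow_of_exponent_ge hd0 hd1 hc2
    -- the valuations
    have hne : ∀ a ∈ A, a ≠ 0 := fun a ha h => hA0' (h ▸ ha)
    have hout : ∀ a ∈ A, ∀ b ∈ A, ∀ q : ℕ, q ∉ P →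
        a.natAbs.factorization q = b.natAbs.factorization q := by
      intro a ha b hb q hq
      by_cases hqp : q.Prime
      · have h2 := num_fac a b (hne a ha) (hne b hb) q hqp
        have h3 := num_fac b a (hne b hb) (hne a ha) q hqp
        have h4 : ((a : ℚ) / b).num.natAbs.factorization q = 0 := by
          by_contra hno
          apply hq
          apply (hA a ha b hb).1
          rw [← Nat.support_factorization]
          exact Finsupp.mem_support_iff.2 hno
        have h5 : ((b : ℚ) / a).num.natAbs.factorization q = 0 := by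
          by_contra hno
          apply hq
          apply (hA b hb a ha).1
          rw [← Nat.support_factorization]
          exact Finsupp.mem_support_iff.2 hno
        omega
      · rw [Nat.factorization_eq_zero_of_not_prime _ hqp,
          Nat.factorization_eq_zero_of_not_prime _ hqp]
    have hdiff : ∀ a ∈ A, ∀ b ∈ A,
        ∑ i, (a.natAbs.factorization (p i) - b.natAbs.factorization (p i)) ≤ L := by
      intro a ha b hb
      have h2 : ∑ i, (a.natAbs.factorization (p i) - b.natAbs.factorization (p i)) =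
          ∑ i, ((a : ℚ) / b).num.natAbs.factorization (p i) :=
        sum_congr rfl (fun i _ =>
          (num_fac a b (hne a ha) (hne b hb) (p i) (hQ _ (hpQ i)).1).symm)
      rw [h2]
      refine le_trans (sum_fac_le p hinj _) ?_
      apply Nat.le_floor
      refine le_trans (hA a ha b hb).2 ?_
      exact mul_le_mul_of_nonneg_left hinvc hn0.le
    -- a set of one sign with half of the elements
    obtain ⟨A1, hA1card, hA1pos, hA1ksum, hA1out, hA1diff⟩ : ∃ A1 : Finset ℤ,
        (A.card : ℝ) ≤ 2 * A1.card ∧ (∀ a ∈ A1, 0 < a) ∧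
        (ksum k A1).card ≤ (ksum k A).card ∧
        (∀ a ∈ A1, ∀ b ∈ A1, ∀ q : ℕ, q ∉ P →
          a.natAbs.factorization q = b.natAbs.factorization q) ∧
        ∀ a ∈ A1, ∀ b ∈ A1,
          ∑ i, (a.natAbs.factorization (p i) - b.natAbs.factorization (p i)) ≤ L := by
      have hsplit : (A.filter (fun a => 0 < a)).card + (A.filter (fun a => ¬ 0 < a)).card =
          A.card := card_filter_add_card_filter_not _
      rcases le_total (A.filter (fun a => ¬ 0 < a)).card (A.filter (fun a => 0 < a)).card with h | h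
      · refine ⟨A.filter (fun a => 0 < a), ?_, fun a ha => (mem_filter.1 ha).2, ?_, ?_, ?_⟩
        · have : A.card ≤ 2 * (A.filter (fun a => 0 < a)).card := by omega
          exact_mod_cast this
        · exact card_le_card (ksum_mono k (filter_subset _ _))
        · intro a ha b hb
          exact hout a (mem_filter.1 ha).1 b (mem_filter.1 hb).1
        · intro a ha b hb
          exact hdiff a (mem_filter.1 ha).1 b (mem_filter.1 hb).1
      · refine ⟨(A.filter (fun a => ¬ 0 < a)).image (fun a => -1 * a), ?_, ?_, ?_, ?_, ?_⟩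
        · rw [card_image_of_injective _ (mul_right_injective₀ (by norm_num))]
          have : A.card ≤ 2 * (A.filter (fun a => ¬ 0 < a)).card := by omega
          exact_mod_cast this
        · intro a ha
          obtain ⟨b, hb, rfl⟩ := mem_image.1 ha
          obtain ⟨hb1, hb2⟩ := mem_filter.1 hb
          have := hne b hb1
          omega
        · rw [ksum_mul k _ (-1) (by norm_num)]
          exact card_le_card (ksum_mono k (filter_subset _ _))
        · intro a ha b hb
          obtain ⟨a', ha', rfl⟩ := mem_image.1 ha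
          obtain ⟨b', hb', rfl⟩ := mem_image.1 hb
          simp only [neg_mul, one_mul, Int.natAbs_neg]
          exact hout a' (mem_filter.1 ha').1 b' (mem_filter.1 hb').1
        · intro a ha b hb
          obtain ⟨a', ha', rfl⟩ := mem_image.1 ha
          obtain ⟨b', hb', rfl⟩ := mem_image.1 hb
          simp only [neg_mul, one_mul, Int.natAbs_neg]
          exact hdiff a' (mem_filter.1 ha').1 b' (mem_filter.1 hb').1
    -- pass to integers composed of primes of `P`
    have hA1ne : A1.Nonempty := by
      rw [← card_pos]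
      have : (0 : ℝ) < A1.card := by linarith
      exact_mod_cast this
    obtain ⟨g, hg⟩ := hA1ne
    have hg0 : 0 < g := hA1pos g hg
    set m : ℕ := g.natAbs with hm
    set D : ℤ := ((∏ q ∈ P, q ^ m : ℕ) : ℤ) with hD
    have hD0 : 0 < D := by
      rw [hD]
      exact_mod_cast Nat.pos_of_ne_zero
        (prod_ne_zero_iff.2 (fun q hq => pow_ne_zero _ (hPp q hq).ne_zero))
    have hcl : ∀ a ∈ A1, ∃ b : ℤ, b ≠ 0 ∧ g * b = D * a ∧ b.natAbs.primeFactors ⊆ P ∧
        ∀ q ∈ P, g.natAbs.factorization q + b.natAbs.factorization q =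
          m + a.natAbs.factorization q := by
      intro a ha
      apply clear P hPp m g a hg0.ne' (hA1pos a ha).ne'
      · intro q
        exact (Nat.factorization_lt q (by omega)).le
      · intro q hq
        exact hA1out a ha g hg q hq
    choose! f hf using hcl
    have hfpos : ∀ a ∈ A1, 0 < f a := by
      intro a ha
      have h2 := (hf a ha).2.1
      have h3 : 0 < g * f a := by
        rw [h2]
        exact mul_pos hD0 (hA1pos a ha)
      exact pos_of_mul_pos_right h3 hg0.le
    have hinjf : Set.InjOn f A1 := by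
      intro a ha b hb hab
      have h1 := (hf a ha).2.1
      have h2 := (hf b hb).2.1
      rw [hab, h2] at h1
      exact (mul_left_cancel₀ hD0.ne' h1).symm
    have hcard : (A1.image f).card = A1.card := card_image_of_injOn hinjf
    have himg2 : (A1.image f).image (fun a => g * a) = A1.image (fun a => D * a) := by
      rw [image_image]
      apply image_congr
      intro a ha
      exact (hf a ha).2.1
    have hk1 : (ksum k (A1.image f)).card = (ksum k A1).card := by
      rw [← ksum_mul k (A1.image f) g hg0.ne', himg2, ksum_mul k A1 D hD0.ne']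
    have hk0 : (k : ℝ) ≠ 0 := by
      have : k ≠ 0 := by omega
      exact_mod_cast this
    set G : ℝ := E ^ (1 / (k : ℝ)) with hG
    have hG0 : 0 < G := Real.rpow_pos_of_pos hE0 _
    have hGk : G ^ k = E := by
      rw [hG, ← Real.rpow_natCast, ← Real.rpow_mul hE0.le, one_div_mul_cancel hk0, Real.rpow_one]
    have h2 := good_dense p hinj (fun i => (hQ _ (hpQ i)).1) hgood G hG0
      (by
        rw [← hGk] at hnb
        exact le_of_pow_le_pow_left₀ (by omega) hG0.le hnb)
      (A1.image f)
      (by
        intro b hb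
        obtain ⟨a, ha, rfl⟩ := mem_image.1 hb
        exact hfpos a ha)
      (by
        intro b hb
        obtain ⟨a, ha, rfl⟩ := mem_image.1 hb
        rw [himg]
        exact (hf a ha).2.2.1)
      (by
        intro b hb b' hb'
        obtain ⟨a, ha, rfl⟩ := mem_image.1 hb
        obtain ⟨a', ha', rfl⟩ := mem_image.1 hb'
        refine le_trans (sum_le_sum (fun i _ => ?_)) (hA1diff a ha a' ha')
        unfold expo
        have h3 := (hf a ha).2.2.2 (p i) (hpP i)
        have h4 := (hf a' ha').2.2.2 (p i) (hpP i)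
        omega)
    rw [hcard, hk1, div_pow, hGk, div_div] at h2
    have h3 : ((ksum k A1).card : ℝ) ≤ (ksum k A).card := by exact_mod_cast hA1ksum
    refine le_trans ?_ (le_trans h2 h3)
    have h4 : (A.card : ℝ) ^ k / 2 ^ k ≤ (A1.card : ℝ) ^ k := by
      rw [div_le_iff₀ (by positivity), ← mul_pow]
      apply pow_le_pow_left₀ hA0.le
      linarith
    rw [Real.rpow_sub hA0, Real.rpow_natCast]
    calc c * ((A.card : ℝ) ^ k / (A.card : ℝ) ^ ε)
        ≤ 1 / (2 ^ k * k.factorial) * ((A.card : ℝ) ^ k / E) := by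
          apply mul_le_mul hc3 _ (div_nonneg (pow_nonneg hA0.le _) (Real.rpow_pos_of_pos hA0 _).le)
            (by positivity)
          exact div_le_div_of_nonneg_left (pow_nonneg hA0.le _) hE0 hEA
      _ = ((A.card : ℝ) ^ k / 2 ^ k) / (E * k.factorial) := by
          field_simp
      _ ≤ (A1.card : ℝ) ^ k / (E * k.factorial) :=
          div_le_div_of_nonneg_right h4 (mul_pos hE0 hfac).le

end Pool.Agent.Helper24.AQ
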