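import Pool.Agent.Helper24.AQ.Union

set_option autoImplicit false

namespace Pool.Agent.Helper24.AQ

open Finset

/-- Pairwise not close. -/
def Sep {α : Type*} (cl : α → α → Prop) (E : Finset α) : Prop :=
  ∀ e ∈ E, ∀ e' ∈ E, e ≠ e' → ¬ cl e e'

theorem exists_separated {α : Type*} [DecidableEq α] (E : Finset α) (cl : α → α → Prop)
    [DecidableRel cl] (hrefl : ∀ e, cl e e) (hsymm : ∀ e e', cl e e' → cl e' e) (G : ℝ)
    (hG : ∀ e ∈ E, ((E.filter (cl e)).card : ℝ) ≤ G) :
    ∃ E' ⊆ E, Sep cl E' ∧ (E.card : ℝ) ≤ G * E'.card := by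
  classical
  obtain ⟨E', hE', hmax⟩ := exists_max_image
    (E.powerset.filter (fun E' => Sep cl E')) (fun E' => E'.card)
    ⟨∅, mem_filter.2 ⟨by simp, fun e he => by simp at he⟩⟩
  obtain ⟨h1, h2⟩ := mem_filter.1 hE'
  rw [mem_powerset] at h1
  refine ⟨E', h1, h2, ?_⟩
  have hcov : E ⊆ E'.biUnion (fun e => E.filter (cl e)) := by
    intro e he
    by_contra hno
    rw [mem_biUnion] at hno
    push Not at hno
    have hno' : ∀ e' ∈ E', ¬ cl e' e := by
      intro e' he' hcl
      exact hno e' he' (mem_filter.2 ⟨he, hcl⟩)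
    have heE' : e ∉ E' := fun h => hno' e h (hrefl e)
    have hsep : Sep cl (insert e E') := by
      intro a ha b hb hab hcl
      rcases mem_insert.1 ha with h | ha'
      · rcases mem_insert.1 hb with h' | hb'
        · exact hab (h.trans h'.symm)
        · rw [h] at hcl
          exact hno' b hb' (hsymm _ _ hcl)
      · rcases mem_insert.1 hb with h' | hb'
        · rw [h'] at hcl
          exact hno' a ha' hcl
        · exact h2 a ha' b hb' hab hcl
    have := hmax (insert e E') (mem_filter.2 ⟨mem_powerset.2 (insert_subset he h1), hsep⟩)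
    rw [card_insert_of_notMem heE'] at this
    omega
  have h3 : (E.card : ℝ) ≤ ∑ e ∈ E', ((E.filter (cl e)).card : ℝ) := by
    exact_mod_cast le_trans (card_le_card hcov) card_biUnion_le
  calc (E.card : ℝ) ≤ ∑ e ∈ E', ((E.filter (cl e)).card : ℝ) := h3
    _ ≤ ∑ _e ∈ E', G := sum_le_sum (fun e he => hG e (h1 he))
    _ = G * E'.card := by rw [sum_const, nsmul_eq_mul]; ring

theorem nbhd_le {n L T : ℕ} (e : Fin n → ℕ) (u x : ℝ) (hu0 : 0 < u) (hu1 : u ≤ 1) (hx0 : 0 < x)
    (hx1 : x < 1) :
    (((exps n L).filter (fun e' => (univ.filter (fun i => e i ≠ e' i)).card ≤ T)).card : ℝ) *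
      (u ^ T * x ^ L) ≤ (1 + u / (1 - x)) ^ n := by
  classical
  apply weight_count (L := L) _ (filter_subset _ _)
    (fun i t => if t = e i then 1 else u * x ^ t)
  · intro i t
    split_ifs <;> positivity
  · intro e' he'
    obtain ⟨h1, h2⟩ := mem_filter.1 he'
    rw [prod_ite, prod_const_one, one_mul, prod_mul_distrib, prod_const, prod_pow_eq_pow_sum]
    apply mul_le_mul
    · apply pow_le_pow_of_le_one hu0.le hu1
      refine le_trans (card_le_card ?_) h2
      intro i hi
      rw [mem_filter] at hi ⊢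
      exact ⟨hi.1, fun h => hi.2 h.symm⟩
    · apply pow_le_pow_of_le_one hx0.le hx1.le
      refine le_trans ?_ (mem_exps.1 h1)
      exact sum_le_sum_of_subset_of_nonneg (filter_subset _ _) (fun _ _ _ => Nat.zero_le _)
    · positivity
    · positivity
  · intro i
    have h1 : ∀ t ∈ range (L + 1), (if t = e i then (1 : ℝ) else u * x ^ t) ≤
        (if t = e i then 1 else 0) + u * x ^ t := by
      intro t _
      split_ifs
      · have : 0 ≤ u * x ^ t := by positivity
        linarith
      · linarith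
    refine le_trans (sum_le_sum h1) ?_
    rw [sum_add_distrib, ← mul_sum]
    have h2 : ∑ t ∈ range (L + 1), (if t = e i then (1 : ℝ) else 0) ≤ 1 := by
      rw [sum_ite_eq']
      split_ifs <;> norm_num
    have h3 : ∑ t ∈ range (L + 1), x ^ t ≤ 1 / (1 - x) := by
      rw [geom_sum_eq hx1.ne]
      have h4 : (x ^ (L + 1) - 1) / (x - 1) = (1 - x ^ (L + 1)) / (1 - x) := by
        rw [← neg_div_neg_eq]; ring
      rw [h4]
      apply div_le_div_of_nonneg_right _ (by linarith)
      have : 0 ≤ x ^ (L + 1) := by positivity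
      linarith
    have h4 : u * ∑ t ∈ range (L + 1), x ^ t ≤ u / (1 - x) := by
      calc u * ∑ t ∈ range (L + 1), x ^ t ≤ u * (1 / (1 - x)) :=
            mul_le_mul_of_nonneg_left h3 hu0.le
        _ = u / (1 - x) := by ring
    linarith

end Pool.Agent.Helper24.AQ
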