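import Pool.Agent.Helper24.AQ.Sums
import Pool.Agent.Helper24.AQ.Pack

set_option autoImplicit false

namespace Pool.Agent.Helper24.AQ

open Finset

/-- Exponents of `a` along the tuple `p`. -/
noncomputable def expo {n : ℕ} (p : Fin n → ℕ) (a : ℤ) : Fin n → ℕ :=
  fun i => a.natAbs.factorization (p i)

theorem val_expo {n : ℕ} (p : Fin n → ℕ) (hinj : Function.Injective p) (a : ℤ) (ha : 0 < a)
    (hsub : a.natAbs.primeFactors ⊆ univ.image p) : val p (expo p a) = a := by
  classical
  have h0 : a.natAbs ≠ 0 := by omega
  have h1 : ∏ i, (p i) ^ (expo p a i) = a.natAbs := by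
    have h2 : ∏ i, (p i) ^ (expo p a i) =
        ∏ q ∈ univ.image p, q ^ (a.natAbs.factorization q) := by
      rw [prod_image (fun x _ y _ h => hinj h)]
      rfl
    rw [h2]
    have h3 := Nat.prod_factorization_pow_eq_self h0
    rw [Finsupp.prod, Nat.support_factorization] at h3
    conv_rhs => rw [← h3]
    symm
    apply prod_subset hsub
    intro q _ hq
    have : a.natAbs.factorization q = 0 := by
      rw [← Nat.support_factorization] at hq
      exact Finsupp.notMem_support_iff.1 hq
    rw [this, pow_zero]
  unfold val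
  have h4 : ((∏ i, (p i) ^ (expo p a i) : ℕ) : ℤ) = (a.natAbs : ℤ) := by rw [h1]
  push_cast at h4
  rw [h4]
  exact abs_of_pos ha

/-- Sets with separated exponent vectors have all `k`-fold sums different. -/
theorem good_bk {n k L T : ℕ} (p : Fin n → ℕ) (hinj : Function.Injective p)
    (hp : ∀ i, (p i).Prime) (hgood : ∀ R ∈ relFam n k (2 * k * L) T, ¬ Rel p R) (A : Finset ℤ)
    (hpos : ∀ a ∈ A, 0 < a) (hsub : ∀ a ∈ A, a.natAbs.primeFactors ⊆ univ.image p)
    (hL : ∀ a ∈ A, ∀ b ∈ A, ∑ i, (expo p a i - expo p b i) ≤ L)
    (hsep : ∀ a ∈ A, ∀ b ∈ A, a ≠ b → T < (univ.filter (fun i => expo p a i ≠ expo p b i)).card) :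
    (ksum k A).card = (A.card + k - 1).choose k := by
  classical
  have hval : ∀ a ∈ A, val p (expo p a) = a := fun a ha =>
    val_expo p hinj a (hpos a ha) (hsub a ha)
  apply ksum_card
  intro s t hs ht hsA htA hst
  have hback : ∀ s : Multiset ℤ, (∀ x ∈ s, x ∈ A) → (s.map (expo p)).map (val p) = s := by
    intro s hs
    rw [Multiset.map_map]
    conv_rhs => rw [← Multiset.map_id s]
    exact Multiset.map_congr rfl (fun x hx => hval x (hs x hx))
  have hkey : s.map (expo p) = t.map (expo p) := by
    apply bk (T := T) (L := L) p (fun i => (hp i).one_le) (A.image (expo p)) ?_ ?_ hgood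
    · simpa using hs
    · simpa using ht
    · intro v hv
      obtain ⟨a, ha, rfl⟩ := Multiset.mem_map.1 hv
      exact mem_image_of_mem _ (hsA a ha)
    · intro v hv
      obtain ⟨a, ha, rfl⟩ := Multiset.mem_map.1 hv
      exact mem_image_of_mem _ (htA a ha)
    · rw [hback s hsA, hback t htA, hst]
    · intro e he e' he'
      obtain ⟨a, ha, rfl⟩ := mem_image.1 he
      obtain ⟨b, hb, rfl⟩ := mem_image.1 he'
      exact hL a ha b hb
    · intro e he e' he' hne
      obtain ⟨a, ha, rfl⟩ := mem_image.1 he
      obtain ⟨b, hb, rfl⟩ := mem_image.1 he'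
      exact hsep a ha b hb (fun h => hne (by rw [h]))
  rw [← hback s hsA, ← hback t htA, hkey]

theorem good_dense {n k L T : ℕ} (p : Fin n → ℕ) (hinj : Function.Injective p)
    (hp : ∀ i, (p i).Prime) (hgood : ∀ R ∈ relFam n k (2 * k * L) T, ¬ Rel p R) (G : ℝ)
    (hG : 0 < G)
    (hnb : (((exps n L).filter
        (fun f => (univ.filter (fun i => (0 : ℕ) ≠ f i)).card ≤ T)).card : ℝ) ^ 2 ≤ G)
    (A : Finset ℤ)
    (hpos : ∀ a ∈ A, 0 < a) (hsub : ∀ a ∈ A, a.natAbs.primeFactors ⊆ univ.image p)
    (hL : ∀ a ∈ A, ∀ b ∈ A, ∑ i, (expo p a i - expo p b i) ≤ L) :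
    ((A.card : ℝ) / G) ^ k / k.factorial ≤ (ksum k A).card := by
  classical
  obtain ⟨A', hA', hsep, hcard⟩ := exists_separated A
    (fun a b => (univ.filter (fun i => expo p a i ≠ expo p b i)).card ≤ T)
    (fun a => by simp) (fun a b h => by
      have : (univ.filter (fun i => expo p b i ≠ expo p a i)) =
          (univ.filter (fun i => expo p a i ≠ expo p b i)) := by
        ext i; simp [ne_comm]
      rw [this]; exact h) G (by
      intro a ha
      refine le_trans ?_ hnb
      set X := (exps n L).filter (fun f => (univ.filter (fun i => (0 : ℕ) ≠ f i)).card ≤ T) with hX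
      have h1 : (A.filter (fun b => (univ.filter (fun i => expo p a i ≠ expo p b i)).card ≤ T)).card
          ≤ (X ×ˢ X).card := by
        apply card_le_card_of_injOn (fun b => ((fun i => expo p a i - expo p b i),
          (fun i => expo p b i - expo p a i)))
        · intro b hb
          obtain ⟨hb1, hb2⟩ := mem_filter.1 hb
          rw [Finset.mem_coe, mem_product, hX]
          refine ⟨mem_filter.2 ⟨mem_exps.2 (hL a ha b hb1), ?_⟩,
            mem_filter.2 ⟨mem_exps.2 (hL b hb1 a ha), ?_⟩⟩
          · refine le_trans (card_le_card ?_) hb2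
            intro i hi
            refine mem_filter.2 ⟨mem_univ _, ?_⟩
            have := (mem_filter.1 hi).2
            simp only at this
            omega
          · refine le_trans (card_le_card ?_) hb2
            intro i hi
            refine mem_filter.2 ⟨mem_univ _, ?_⟩
            have := (mem_filter.1 hi).2
            simp only at this
            omega
        · intro b hb b' hb' hbb
          have hbA := (mem_filter.1 hb).1
          have hbA' := (mem_filter.1 hb').1
          rw [← val_expo p hinj b (hpos b hbA) (hsub b hbA),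
            ← val_expo p hinj b' (hpos b' hbA') (hsub b' hbA')]
          congr 1
          ext i
          simp only [Prod.mk.injEq] at hbb
          have h2 := congrFun hbb.1 i
          have h3 := congrFun hbb.2 i
          omega
      rw [card_product] at h1
      rw [sq]
      exact_mod_cast h1)
  have h1 := good_bk p hinj hp hgood A' (fun a ha => hpos a (hA' ha))
    (fun a ha => hsub a (hA' ha)) (fun a ha b hb => hL a (hA' ha) b (hA' hb))
    (fun a ha b hb hab => not_le.1 (hsep a ha b hb hab))
  have h2 : ((ksum k A').card : ℝ) ≤ (ksum k A).card := by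
    exact_mod_cast card_le_card (ksum_mono k hA')
  refine le_trans ?_ h2
  rw [h1]
  refine le_trans ?_ (choose_ge A'.card k)
  apply div_le_div_of_nonneg_right _ (by positivity)
  apply pow_le_pow_left₀ (by positivity)
  rw [div_le_iff₀ hG]
  linarith

end Pool.Agent.Helper24.AQ
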