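import Pool.Agent.Helper24.AQ.Count

set_option autoImplicit false

namespace Pool.Agent.Helper24.AQ

open Finset

theorem rel_count {n : ℕ} (Q : Finset ℕ) (hQ : ∀ q ∈ Q, q.Prime)
    (R : Finset ((Fin n → ℕ) × ℤ)) (hnorm : ∀ i, ∃ x ∈ R, x.1 i = 0) (K y L W : ℕ) (hy : 1 ≤ y)
    (hQy : ∀ q ∈ Q, q ≤ y) (hL : ∀ x ∈ R, ∑ i, x.1 i ≤ L) (hK : ∑ x ∈ R, |x.2| ≤ K)
    (hW : ∀ Y : ℤ, Y ≠ 0 → |Y| ≤ K * (y : ℤ) ^ L →
      (Q.filter (fun q : ℕ => (q : ℤ) ∣ Y)).card ≤ W)
    [DecidablePred (fun p : Fin n → ℕ => Rel p R)] :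
    ∃ s : ℕ, (act R).card ≤ s * 2 ^ R.card ∧ s ≤ n ∧
      ((Fintype.piFinset (fun _ : Fin n => Q)).filter (fun p => Rel p R)).card ≤
        W ^ s * Q.card ^ (n - s) := by
  classical
  set pat : Fin n → Finset ((Fin n → ℕ) × ℤ) := fun i => R.filter (fun x => x.1 i = 0) with hpat
  obtain ⟨S, hSt, hSmax⟩ := exists_max_image R.powerset
    (fun S => ((act R).filter (fun i => pat i = S)).card) ⟨∅, by simp⟩
  set D := (act R).filter (fun i => pat i = S) with hD
  refine ⟨D.card, ?_, ?_, ?_⟩
  · have := card_le_mul_card_image_of_maps_to (s := act R) (t := R.powerset) (f := pat)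
      (fun i _ => by simp [hpat]) D.card (fun b hb => hSmax b hb)
    simpa [card_powerset] using this
  · simpa using card_le_univ D
  · rcases D.eq_empty_or_nonempty with hDe | ⟨j0, hj0⟩
    · rw [hDe]
      simp only [card_empty, pow_zero, one_mul, Nat.sub_zero]
      refine le_trans (card_le_card (filter_subset _ _)) ?_
      rw [Fintype.card_piFinset]; simp
    · have hmem : ∀ i ∈ D, pat i = S := fun i hi => (mem_filter.1 hi).2
      have hzero : ∀ x ∈ S, ∀ i ∈ D, x.1 i = 0 := by
        intro x hx i hi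
        rw [← hmem i hi] at hx
        exact (mem_filter.1 hx).2
      have hSR : S ⊂ R := by
        have h1 : S ⊆ R := mem_powerset.1 hSt
        refine (ssubset_iff_of_subset h1).2 ?_
        have h2 := (mem_filter.1 hj0).1
        simp only [act, mem_filter, mem_univ, true_and] at h2
        obtain ⟨x, hx, hx0⟩ := h2
        exact ⟨x, hx, fun h => hx0 (hzero x h j0 hj0)⟩
      have hSne : S.Nonempty := by
        obtain ⟨x, hx, hx0⟩ := hnorm j0
        refine ⟨x, ?_⟩
        rw [← hmem j0 hj0]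
        exact mem_filter.2 ⟨hx, hx0⟩
      set T : (Fin n → ℕ) → Finset ℕ := fun h =>
        Q.filter (fun q : ℕ => (q : ℤ) ∣ ∑ x ∈ S, x.2 * val h x.1) with hT
      have hY : ∀ p : Fin n → ℕ, ∑ x ∈ S, x.2 * val (mask D p) x.1 = ∑ x ∈ S, x.2 * val p x.1 := by
        intro p
        refine sum_congr rfl (fun x hx => ?_)
        rw [val_mask D p x.1 (hzero x hx)]
      apply count_le Q D _ (filter_subset _ _) T W
      · intro p hp j hj
        obtain ⟨hp1, hp2⟩ := mem_filter.1 hp
        rw [hT]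
        simp only [mem_filter]
        refine ⟨Fintype.mem_piFinset.1 hp1 j, ?_⟩
        rw [hY]
        have h0 := hp2.1
        rw [← sum_sdiff (mem_powerset.1 hSt)] at h0
        have h1 : ((p j : ℕ) : ℤ) ∣ ∑ x ∈ R \ S, x.2 * val p x.1 := by
          refine dvd_sum (fun x hx => ?_)
          obtain ⟨hxR, hxS⟩ := mem_sdiff.1 hx
          have hxj : x.1 j ≠ 0 := by
            intro h
            apply hxS
            rw [← hmem j hj]
            exact mem_filter.2 ⟨hxR, h⟩
          apply Dvd.dvd.mul_left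
          unfold val
          exact dvd_trans (dvd_pow_self _ hxj) (dvd_prod_of_mem (fun i => ((p i : ℕ) : ℤ) ^ x.1 i)
            (mem_univ j))
        have h2 : ∑ x ∈ S, x.2 * val p x.1 = -∑ x ∈ R \ S, x.2 * val p x.1 := by linarith
        rw [h2]
        exact (dvd_neg).2 h1
      · intro p hp
        obtain ⟨hp1, hp2⟩ := mem_filter.1 hp
        rw [hT]
        simp only
        rw [hY]
        have hpQ := Fintype.mem_piFinset.1 hp1
        apply hW _ (hp2.2 S hSR hSne)
        refine le_trans (abs_sum_le_sum_abs _ _) ?_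
        have h1 : ∀ x ∈ S, |x.2 * val p x.1| ≤ |x.2| * (y : ℤ) ^ L := by
          intro x hx
          rw [abs_mul, abs_of_pos (val_pos p x.1 (fun i => (hQ _ (hpQ i)).one_le))]
          exact mul_le_mul_of_nonneg_left
            (val_le p x.1 y L hy (fun i => hQy _ (hpQ i)) (hL x (hSR.1 hx))) (abs_nonneg _)
        refine le_trans (sum_le_sum h1) ?_
        rw [← sum_mul]
        apply mul_le_mul_of_nonneg_right _ (by positivity)
        exact le_trans (sum_le_sum_of_subset_of_nonneg hSR.1 (fun _ _ _ => abs_nonneg _)) hK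

end Pool.Agent.Helper24.AQ
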