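import Pool.Agent.Helper24.AQ.Good

set_option autoImplicit false

namespace Pool.Agent.Helper24.AQ

open Finset

theorem subset_count {n : ℕ} (Q : Finset ℕ) (B : Finset (Finset ℕ)) (hB : B ⊆ Q.powersetCard n)
    (S : Finset (Fin n → ℕ))
    (h : ∀ P ∈ B, ∀ p : Fin n → ℕ, Function.Injective p → univ.image p = P → p ∈ S) :
    n.factorial * B.card ≤ S.card := by
  classical
  have h1 : n.factorial * B.card ≤ (S.filter (fun p => univ.image p ∈ B)).card := by
    apply mul_card_image_le_card_of_maps_to (f := fun p : Fin n → ℕ => univ.image p)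
    · intro p hp
      exact (mem_filter.1 hp).2
    · intro P hP
      have hPc : P.card = n := (mem_powersetCard.1 (hB hP)).2
      set e := P.equivFinOfCardEq hPc with he
      set F : Equiv.Perm (Fin n) → (Fin n → ℕ) := fun σ i => (e.symm (σ i)).1 with hF
      have hFinj : Function.Injective F := by
        intro σ σ' hσ
        ext i
        have h1 := congrFun hσ i
        have h2 : e.symm (σ i) = e.symm (σ' i) := Subtype.ext h1
        rw [e.symm.injective h2]
      have hsub : univ.image F ⊆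
          (S.filter (fun p => univ.image p ∈ B)).filter (fun p => univ.image p = P) := by
        intro p hp
        obtain ⟨σ, _, rfl⟩ := mem_image.1 hp
        have himg : univ.image (F σ) = P := by
          ext q
          constructor
          · intro hq
            obtain ⟨i, _, rfl⟩ := mem_image.1 hq
            exact (e.symm (σ i)).2
          · intro hq
            refine mem_image.2 ⟨σ.symm (e ⟨q, hq⟩), mem_univ _, ?_⟩
            rw [hF]
            simp
        have hinj : Function.Injective (F σ) := by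
          intro i j hij
          have h2 : e.symm (σ i) = e.symm (σ j) := Subtype.ext hij
          exact σ.injective (e.symm.injective h2)
        exact mem_filter.2 ⟨mem_filter.2 ⟨h P hP (F σ) hinj himg, himg ▸ hP⟩, himg⟩
      have h3 := card_le_card hsub
      rw [card_image_of_injective _ hFinj, card_univ, Fintype.card_perm, Fintype.card_fin] at h3
      exact h3
  exact le_trans h1 (card_le_card (filter_subset _ _))

theorem pow_le_choose (N n : ℕ) (h : 2 * n ≤ N) :
    (N : ℝ) ^ n ≤ 2 ^ n * (n.factorial * (N.choose n : ℕ)) := by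
  have h1 := Nat.pow_sub_le_descFactorial N n
  rw [Nat.descFactorial_eq_factorial_mul_choose] at h1
  have h2 : (((N + 1 - n) ^ n : ℕ) : ℝ) ≤ ((n.factorial * N.choose n : ℕ) : ℝ) := by
    exact_mod_cast h1
  push_cast at h2
  have h3 : (N : ℝ) ≤ 2 * ((N + 1 - n : ℕ) : ℝ) := by
    have : N ≤ 2 * (N + 1 - n) := by omega
    exact_mod_cast this
  calc (N : ℝ) ^ n ≤ (2 * ((N + 1 - n : ℕ) : ℝ)) ^ n := pow_le_pow_left₀ (by positivity) h3 _
    _ = 2 ^ n * ((N + 1 - n : ℕ) : ℝ) ^ n := mul_pow _ _ _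
    _ ≤ 2 ^ n * (n.factorial * (N.choose n : ℕ)) := by
        apply mul_le_mul_of_nonneg_left _ (by positivity)
        exact h2

theorem pow_le_choose' (N n : ℕ) (h : 2 * n * n ≤ N) :
    (N : ℝ) ^ n ≤ 2 * (n.factorial * (N.choose n : ℕ)) := by
  rcases Nat.eq_zero_or_pos n with hn | hn
  · subst hn
    simp
  have hN : 0 < N := by nlinarith
  have h1 := Nat.pow_sub_le_descFactorial N n
  rw [Nat.descFactorial_eq_factorial_mul_choose] at h1
  have h2 : (((N + 1 - n) ^ n : ℕ) : ℝ) ≤ ((n.factorial * N.choose n : ℕ) : ℝ) := by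
    exact_mod_cast h1
  push_cast at h2
  have hnN : n ≤ N := by nlinarith
  have hN' : (0 : ℝ) < N := by exact_mod_cast hN
  have h3 : (N : ℝ) * (1 + (-((n : ℝ) / N))) ≤ ((N + 1 - n : ℕ) : ℝ) := by
    rw [Nat.cast_sub (by omega)]
    push_cast
    have : (N : ℝ) * (1 + (-((n : ℝ) / N))) = N - n := by field_simp; ring
    rw [this]; linarith
  have hn1 : (n : ℝ) / N ≤ 1 := by
    rw [div_le_one hN']; exact_mod_cast hnN
  have h4 := one_add_mul_le_pow (a := -((n : ℝ) / N)) (by linarith) n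
  have h5 : (1 : ℝ) / 2 ≤ 1 + n * (-((n : ℝ) / N)) := by
    have : (n : ℝ) * (n / N) ≤ 1 / 2 := by
      rw [← mul_div_assoc, div_le_iff₀ hN']
      have : (2 * n * n : ℝ) ≤ N := by exact_mod_cast h
      linarith
    linarith
  have h6 : (N : ℝ) ^ n * (1 / 2) ≤ ((N + 1 - n : ℕ) : ℝ) ^ n := by
    calc (N : ℝ) ^ n * (1 / 2) ≤ (N : ℝ) ^ n * (1 + (-((n : ℝ) / N))) ^ n :=
          mul_le_mul_of_nonneg_left (le_trans h5 h4) (by positivity)
      _ = (N * (1 + (-((n : ℝ) / N)))) ^ n := (mul_pow _ _ _).symm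
      _ ≤ ((N + 1 - n : ℕ) : ℝ) ^ n := by
          apply pow_le_pow_left₀ _ h3
          apply mul_nonneg hN'.le
          linarith
  linarith

/-- The number of primes of `Q` dividing a bounded integer. -/
theorem W_bound (k : ℕ) (hk : 1 ≤ k) (τ : ℝ) (hτ : 0 < τ) (y L : ℕ) (hy : 3 ≤ y) (Q : Finset ℕ)
    (hQ : ∀ q ∈ Q, q.Prime) (hQc : (y : ℝ) ^ τ ≤ Q.card) (Y : ℤ) (hY : Y ≠ 0)
    (hYle : |Y| ≤ (2 * k * k : ℕ) * (y : ℤ) ^ L) :
    ((Q.filter (fun q : ℕ => (q : ℤ) ∣ Y)).card : ℝ) ≤
      (Q.card : ℝ) ^ (1 / 2 : ℝ) + 1 + 2 / τ * (Real.log (2 * k * k) + L) := by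
  have hy0 : (0 : ℝ) < y := by positivity
  have hy1 : (1 : ℝ) < y := by exact_mod_cast (by omega : 1 < y)
  have hlogy : 1 ≤ Real.log y := by
    rw [Real.le_log_iff_exp_le hy0]
    have h1 := Real.exp_one_lt_d9
    have h2 : (3 : ℝ) ≤ y := by exact_mod_cast hy
    linarith
  set z : ℕ := ⌈(y : ℝ) ^ (τ / 2)⌉₊ with hz
  obtain ⟨r, hr1, hr2⟩ := div_count Q hQ Y hY z
  have hz1 : (z : ℝ) ≤ (y : ℝ) ^ (τ / 2) + 1 := (Nat.ceil_lt_add_one (by positivity)).le
  have hz2 : (y : ℝ) ^ (τ / 2) ≤ z := Nat.le_ceil _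
  have hzpos : (0 : ℝ) < z := lt_of_lt_of_le (by positivity) hz2
  have h1 : (y : ℝ) ^ (τ / 2) ≤ (Q.card : ℝ) ^ (1 / 2 : ℝ) := by
    have : (y : ℝ) ^ (τ / 2) = ((y : ℝ) ^ τ) ^ (1 / 2 : ℝ) := by
      rw [← Real.rpow_mul hy0.le]; ring_nf
    rw [this]
    exact Real.rpow_le_rpow (by positivity) hQc (by norm_num)
  have h2 : (τ / 2) * Real.log y ≤ Real.log z := by
    rw [← Real.log_rpow hy0]
    exact Real.log_le_log (by positivity) hz2
  have hk0 : (0 : ℝ) < k := by exact_mod_cast hk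
  have h3 : (r : ℝ) * Real.log z ≤ Real.log (2 * k * k) + L * Real.log y := by
    have h4 : ((z : ℝ)) ^ r ≤ (2 * k * k) * (y : ℝ) ^ L := by
      have := le_trans hr2 hYle
      exact_mod_cast this
    have h5 := Real.log_le_log (by positivity) h4
    rw [Real.log_pow, Real.log_mul (by positivity) (by positivity), Real.log_pow] at h5
    exact h5
  have hlk : 0 ≤ Real.log (2 * k * k) := by
    apply Real.log_nonneg
    have : (1 : ℝ) ≤ k := by exact_mod_cast hk
    nlinarith
  have h4 : (r : ℝ) ≤ 2 / τ * (Real.log (2 * k * k) + L) := by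
    have h5 : (r : ℝ) * ((τ / 2) * Real.log y) ≤ (Real.log (2 * k * k) + L) * Real.log y := by
      calc (r : ℝ) * ((τ / 2) * Real.log y) ≤ r * Real.log z :=
            mul_le_mul_of_nonneg_left h2 (by positivity)
        _ ≤ Real.log (2 * k * k) + L * Real.log y := h3
        _ ≤ (Real.log (2 * k * k) + L) * Real.log y := by nlinarith
    have h6 : (r : ℝ) * (τ / 2) ≤ Real.log (2 * k * k) + L := by
      have h7 : ((r : ℝ) * (τ / 2)) * Real.log y ≤ (Real.log (2 * k * k) + L) * Real.log y := by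
        calc ((r : ℝ) * (τ / 2)) * Real.log y = (r : ℝ) * ((τ / 2) * Real.log y) := by ring
          _ ≤ _ := h5
      exact le_of_mul_le_mul_right h7 (by linarith)
    rw [div_mul_eq_mul_div, le_div_iff₀ hτ]
    linarith
  have h5 : ((Q.filter (fun q : ℕ => (q : ℤ) ∣ Y)).card : ℝ) ≤ z + r := by exact_mod_cast hr1
  linarith

end Pool.Agent.Helper24.AQ
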