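import Pool.Agent.Helper24.AQ.Bk

set_option autoImplicit false

namespace Pool.Agent.Helper24.AQ

open Finset

/-- The set of `k`-fold sums. -/
def ksum (k : ℕ) (A : Finset ℤ) : Finset ℤ :=
  (Fintype.piFinset (fun _ : Fin k => A)).image (fun f : Fin k → ℤ => ∑ i, f i)

theorem ksum_mono (k : ℕ) {A B : Finset ℤ} (h : A ⊆ B) : ksum k A ⊆ ksum k B := by
  intro x hx
  obtain ⟨f, hf, rfl⟩ := mem_image.1 hx
  refine mem_image.2 ⟨f, ?_, rfl⟩
  rw [Fintype.mem_piFinset] at hf ⊢
  exact fun i => h (hf i)

theorem ksum_card (k : ℕ) (A : Finset ℤ)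
    (h : ∀ s t : Multiset ℤ, Multiset.card s = k → Multiset.card t = k → (∀ x ∈ s, x ∈ A) →
      (∀ x ∈ t, x ∈ A) → s.sum = t.sum → s = t) :
    (ksum k A).card = (A.card + k - 1).choose k := by
  classical
  set α := {x // x ∈ A} with hα
  set Φ : Sym α k → ℤ := fun s => ((s : Multiset α).map (fun x : α => x.1)).sum with hΦ
  have hinj : Function.Injective Φ := by
    intro s t hst
    have h1 := h ((s : Multiset α).map (fun x : α => x.1)) ((t : Multiset α).map (fun x : α => x.1))
      (by simp) (by simp) (by
        intro x hx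
        obtain ⟨y, _, rfl⟩ := Multiset.mem_map.1 hx
        exact y.2) (by
        intro x hx
        obtain ⟨y, _, rfl⟩ := Multiset.mem_map.1 hx
        exact y.2) hst
    have h2 := Multiset.map_injective (Subtype.val_injective) h1
    exact Subtype.ext h2
  have himg : ksum k A = univ.image Φ := by
    ext x
    constructor
    · intro hx
      obtain ⟨f, hf, rfl⟩ := mem_image.1 hx
      rw [Fintype.mem_piFinset] at hf
      refine mem_image.2 ⟨⟨(univ.val.map (fun i : Fin k => (⟨f i, hf i⟩ : α))), by simp⟩,
        mem_univ _, ?_⟩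
      rw [hΦ]
      simp only [Sym.coe_mk, Multiset.map_map, Function.comp_def]
      rfl
    · intro hx
      obtain ⟨s, _, rfl⟩ := mem_image.1 hx
      obtain ⟨l, hl⟩ := Quot.exists_rep (s : Multiset α)
      have hl' : (l : Multiset α) = (s : Multiset α) := hl
      have hlen : l.length = k := by
        have := s.2
        have h2 : Multiset.card (s : Multiset α) = k := s.2
        rw [← hl', Multiset.coe_card] at h2
        exact h2
      refine mem_image.2 ⟨fun i => (l.get (i.cast hlen.symm)).1, ?_, ?_⟩
      · rw [Fintype.mem_piFinset]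
        intro i
        exact (l.get (i.cast hlen.symm)).2
      · rw [hΦ]
        simp only
        rw [← hl', Multiset.map_coe, Multiset.sum_coe]
        subst hlen
        have : l.map (fun x : α => x.1) = List.ofFn (fun i : Fin l.length => (l.get i).1) := by
          apply List.ext_get
          · simp
          · intro i h1 h2
            simp
        rw [this, List.sum_ofFn]
        rfl
  rw [himg, card_image_of_injective _ hinj, card_univ, Sym.card_sym_eq_choose]
  simp [hα]

theorem choose_ge (m k : ℕ) : (m : ℝ) ^ k / k.factorial ≤ ((m + k - 1).choose k : ℕ) := by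
  rw [div_le_iff₀ (by positivity)]
  have h1 := Nat.pow_succ_le_ascFactorial m k
  rw [Nat.ascFactorial_eq_factorial_mul_choose'] at h1
  have h2 : ((m ^ k : ℕ) : ℝ) ≤ ((k.factorial * (m + k - 1).choose k : ℕ) : ℝ) := by
    exact_mod_cast h1
  push_cast at h2
  linarith

end Pool.Agent.Helper24.AQ
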