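import Pool.Agent.Helper24.AQ.RelCount

set_option autoImplicit false

namespace Pool.Agent.Helper24.AQ

open Finset

/-- Exponent vectors of total degree at most `L`. -/
noncomputable def exps (n L : ℕ) : Finset (Fin n → ℕ) := by
  classical
  exact (Fintype.piFinset (fun _ : Fin n => range (L + 1))).filter (fun e => ∑ i, e i ≤ L)

theorem mem_exps {n L : ℕ} {e : Fin n → ℕ} : e ∈ exps n L ↔ ∑ i, e i ≤ L := by
  unfold exps
  simp only [mem_filter, Fintype.mem_piFinset, mem_range]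
  refine ⟨fun h => h.2, fun h => ⟨fun i => ?_, h⟩⟩
  have := single_le_sum (f := e) (fun j _ => Nat.zero_le _) (mem_univ i)
  omega

theorem weight_count {n L : ℕ} (S : Finset (Fin n → ℕ)) (hS : S ⊆ exps n L)
    (w : Fin n → ℕ → ℝ) (hw : ∀ i t, 0 ≤ w i t) (β γ : ℝ)
    (hβ : ∀ e ∈ S, β ≤ ∏ i, w i (e i)) (hγ : ∀ i, ∑ t ∈ range (L + 1), w i t ≤ γ) :
    S.card * β ≤ γ ^ n := by
  classical
  have h1 : (S.card : ℝ) * β ≤ ∑ e ∈ S, ∏ i, w i (e i) := by
    rw [← nsmul_eq_mul, ← sum_const]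
    exact sum_le_sum hβ
  have h2 : ∑ e ∈ S, ∏ i, w i (e i) ≤
      ∑ e ∈ Fintype.piFinset (fun _ : Fin n => range (L + 1)), ∏ i, w i (e i) := by
    apply sum_le_sum_of_subset_of_nonneg
    · refine hS.trans ?_
      unfold exps
      exact filter_subset _ _
    · intro e _ _
      exact prod_nonneg (fun i _ => hw _ _)
  have h3 : ∑ e ∈ Fintype.piFinset (fun _ : Fin n => range (L + 1)), ∏ i, w i (e i) =
      ∏ i, ∑ t ∈ range (L + 1), w i t := (prod_univ_sum _ _).symm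
  have h4 : ∏ i, ∑ t ∈ range (L + 1), w i t ≤ γ ^ n := by
    calc ∏ i, ∑ t ∈ range (L + 1), w i t ≤ ∏ _i : Fin n, γ :=
          prod_le_prod (fun i _ => sum_nonneg (fun t _ => hw _ _)) (fun i _ => hγ i)
      _ = γ ^ n := by simp
  linarith

theorem card_exps (n L : ℕ) : ((exps n L).card : ℝ) ≤ 2 ^ (L + n) := by
  have h := weight_count (exps n L) (subset_refl _) (fun _ t => ((1 : ℝ) / 2) ^ t)
    (fun _ _ => by positivity) ((1 / 2) ^ L) 2 (by
      intro e he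
      rw [prod_pow_eq_pow_sum]
      exact pow_le_pow_of_le_one (by norm_num) (by norm_num) (mem_exps.1 he)) (by
      intro i
      rw [geom_sum_eq (by norm_num)]
      have h0 : (0 : ℝ) < (1 / 2) ^ (L + 1) := by positivity
      have h1 : (((1 : ℝ) / 2) ^ (L + 1) - 1) / (1 / 2 - 1) = 2 * (1 - (1 / 2) ^ (L + 1)) := by
        ring
      rw [h1]
      linarith)
  have h2 : (1 / 2 : ℝ) ^ L * 2 ^ L = 1 := by rw [← mul_pow]; norm_num
  calc ((exps n L).card : ℝ) = (exps n L).card * ((1 / 2 : ℝ) ^ L * 2 ^ L) := by rw [h2, mul_one]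
    _ = ((exps n L).card * (1 / 2 : ℝ) ^ L) * 2 ^ L := by ring
    _ ≤ 2 ^ n * 2 ^ L := by
        apply mul_le_mul_of_nonneg_right h (by positivity)
    _ = 2 ^ (L + n) := by rw [pow_add]; ring

theorem card_small_subsets {α : Type*} [DecidableEq α] (X : Finset α) (b : ℕ) :
    ((X.powerset.filter (fun R => R.card ≤ b)).card : ℝ) ≤ (b + 1) * (max 1 (X.card : ℝ)) ^ b := by
  have h1 : X.powerset.filter (fun R => R.card ≤ b) ⊆
      (range (b + 1)).biUnion (fun j => X.powersetCard j) := by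
    intro R hR
    obtain ⟨h1, h2⟩ := mem_filter.1 hR
    exact mem_biUnion.2 ⟨R.card, mem_range.2 (by omega),
      mem_powersetCard.2 ⟨mem_powerset.1 h1, rfl⟩⟩
  have h2 : (X.powerset.filter (fun R => R.card ≤ b)).card ≤
      ∑ j ∈ range (b + 1), (X.powersetCard j).card :=
    le_trans (card_le_card h1) card_biUnion_le
  have h3 : ((∑ j ∈ range (b + 1), (X.powersetCard j).card : ℕ) : ℝ) ≤
      ∑ _j ∈ range (b + 1), (max 1 (X.card : ℝ)) ^ b := by
    push_cast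
    refine sum_le_sum (fun j hj => ?_)
    rw [card_powersetCard]
    have h4 : ((X.card.choose j : ℕ) : ℝ) ≤ (X.card : ℝ) ^ j := by
      exact_mod_cast Nat.choose_le_pow X.card j
    calc ((X.card.choose j : ℕ) : ℝ) ≤ (X.card : ℝ) ^ j := h4
      _ ≤ (max 1 (X.card : ℝ)) ^ j := pow_le_pow_left₀ (by positivity) (le_max_right _ _) _
      _ ≤ (max 1 (X.card : ℝ)) ^ b :=
          pow_le_pow_right₀ (le_max_left _ _) (by have := mem_range.1 hj; omega)
  calc ((X.powerset.filter (fun R => R.card ≤ b)).card : ℝ)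
      ≤ ((∑ j ∈ range (b + 1), (X.powersetCard j).card : ℕ) : ℝ) := by exact_mod_cast h2
    _ ≤ _ := h3
    _ = (b + 1) * (max 1 (X.card : ℝ)) ^ b := by simp

/-- Union bound over a family of relations. -/
theorem union_le {n : ℕ} (Q : Finset ℕ) (hQ : ∀ q ∈ Q, q.Prime) (k y L W : ℕ) (hy : 1 ≤ y)
    (hQy : ∀ q ∈ Q, q ≤ y)
    (hW : ∀ Y : ℤ, Y ≠ 0 → |Y| ≤ (2 * k * k : ℕ) * (y : ℤ) ^ L →
      (Q.filter (fun q : ℕ => (q : ℤ) ∣ Y)).card ≤ W)
    (ρ : ℝ) (hρ0 : 0 < ρ) (hρ1 : ρ ≤ 1) (hρ : (W : ℝ) ≤ ρ * Q.card)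
    (F : Finset (Finset ((Fin n → ℕ) × ℤ)))
    (hF1 : ∀ R ∈ F, R.card ≤ 2 * k) (hF2 : ∀ R ∈ F, ∀ x ∈ R, ∑ i, x.1 i ≤ L ∧ |x.2| ≤ k)
    (hF3 : ∀ R ∈ F, ∀ i, ∃ x ∈ R, x.1 i = 0)
    [DecidablePred (fun p : Fin n → ℕ => ∃ R ∈ F, Rel p R)] :
    (((Fintype.piFinset (fun _ : Fin n => Q)).filter (fun p => ∃ R ∈ F, Rel p R)).card : ℝ) ≤
      (∑ R ∈ F, ρ ^ (((act R).card : ℝ) / 4 ^ k)) * (Q.card : ℝ) ^ n := by
  classical
  have h1 : (Fintype.piFinset (fun _ : Fin n => Q)).filter (fun p => ∃ R ∈ F, Rel p R) ⊆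
      F.biUnion (fun R => (Fintype.piFinset (fun _ : Fin n => Q)).filter (fun p => Rel p R)) := by
    intro p hp
    obtain ⟨hp1, R, hR, hp2⟩ := mem_filter.1 hp
    exact mem_biUnion.2 ⟨R, hR, mem_filter.2 ⟨hp1, hp2⟩⟩
  have h2 := le_trans (card_le_card h1) card_biUnion_le
  have h3 : ((((Fintype.piFinset (fun _ : Fin n => Q)).filter
      (fun p => ∃ R ∈ F, Rel p R)).card : ℕ) : ℝ) ≤
      ∑ R ∈ F, (((Fintype.piFinset (fun _ : Fin n => Q)).filter (fun p => Rel p R)).card : ℝ) := by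
    exact_mod_cast h2
  refine le_trans h3 ?_
  rw [sum_mul]
  refine sum_le_sum (fun R hR => ?_)
  have hK : ∑ x ∈ R, |x.2| ≤ ((2 * k * k : ℕ) : ℤ) := by
    calc ∑ x ∈ R, |x.2| ≤ ∑ _x ∈ R, (k : ℤ) := sum_le_sum (fun x hx => (hF2 R hR x hx).2)
      _ = R.card * k := by simp
      _ ≤ (2 * k : ℕ) * k := by
          apply mul_le_mul_of_nonneg_right _ (by positivity)
          exact_mod_cast hF1 R hR
      _ = ((2 * k * k : ℕ) : ℤ) := by push_cast; ring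
  obtain ⟨s, hs1, hs2, hs3⟩ := rel_count Q hQ R (hF3 R hR) (2 * k * k) y L W hy hQy
    (fun x hx => (hF2 R hR x hx).1) hK hW
  have h4 : (((Fintype.piFinset (fun _ : Fin n => Q)).filter (fun p => Rel p R)).card : ℝ) ≤
      (W : ℝ) ^ s * (Q.card : ℝ) ^ (n - s) := by exact_mod_cast hs3
  refine le_trans h4 ?_
  have h5 : (W : ℝ) ^ s ≤ ρ ^ s * (Q.card : ℝ) ^ s := by
    rw [← mul_pow]
    exact pow_le_pow_left₀ (by positivity) hρ _
  have h6 : (Q.card : ℝ) ^ s * (Q.card : ℝ) ^ (n - s) = (Q.card : ℝ) ^ n := by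
    rw [← pow_add]; congr 1; omega
  have h7 : ρ ^ s ≤ ρ ^ (((act R).card : ℝ) / 4 ^ k) := by
    rw [← Real.rpow_natCast]
    apply Real.rpow_le_rpow_of_exponent_ge hρ0 hρ1
    rw [div_le_iff₀ (by positivity)]
    have h8 : ((act R).card : ℝ) ≤ s * 2 ^ R.card := by exact_mod_cast hs1
    refine le_trans h8 ?_
    apply mul_le_mul_of_nonneg_left _ (by positivity)
    calc (2 : ℝ) ^ R.card ≤ 2 ^ (2 * k) := pow_le_pow_right₀ (by norm_num) (hF1 R hR)
      _ = 4 ^ k := by rw [pow_mul]; norm_num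
  calc (W : ℝ) ^ s * (Q.card : ℝ) ^ (n - s)
      ≤ (ρ ^ s * (Q.card : ℝ) ^ s) * (Q.card : ℝ) ^ (n - s) :=
        mul_le_mul_of_nonneg_right h5 (by positivity)
    _ = ρ ^ s * (Q.card : ℝ) ^ n := by rw [mul_assoc, h6]
    _ ≤ ρ ^ (((act R).card : ℝ) / 4 ^ k) * (Q.card : ℝ) ^ n :=
        mul_le_mul_of_nonneg_right h7 (by positivity)

end Pool.Agent.Helper24.AQ
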